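import Pool.Agent.LibGM77.C_Om

/-!
TASK C_Reach. The explored cluster `reach A D C`.

`reach_local`: `reach A D C` is determined by the edges of `eIn D` which touch it. Let
`S = reach A D C`. `⊆`: a path inside `D` from `C`, open in `A'`, stays in `S`: induction; a step from a
vertex of `S` uses an edge of `eIn D` touching `S`, so it is `A`-open and leads to a vertex of `S`.
`⊇`: a path inside `D` from `C`, open in `A`, only visits vertices of `S`, so its edges touch `S` and
are open in `A'`.
`reach_trans`: the key inclusion for the comparison: paths from `reach A D C` inside `L ⊇ D`.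
-/

namespace Ein99.GMA

variable {d : ℕ}

theorem mem_reach {A : Finset (Ed d)} {D C : Finset (V d)} {y : V d} :
    y ∈ reach A D C ↔ y ∈ C ∨ (y ∈ D ∧ ∃ x ∈ C, JoinIn (om A) (D : Set (V d)) x y) := by
  classical
  unfold reach
  rw [Finset.mem_union, Finset.mem_filter]

theorem subset_reach (A : Finset (Ed d)) (D C : Finset (V d)) : C ⊆ reach A D C := by
  intro y hy
  exact mem_reach.2 (Or.inl hy)

theorem reach_subset (A : Finset (Ed d)) (D C : Finset (V d)) : reach A D C ⊆ C ∪ D := by
  intro y hy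
  rw [Finset.mem_union]
  rcases mem_reach.1 hy with h | h
  · exact Or.inl h
  · exact Or.inr h.1

theorem reach_mono {A B : Finset (Ed d)} (hAB : A ⊆ B) (D C : Finset (V d)) :
    reach A D C ⊆ reach B D C := by
  intro y hy
  rcases mem_reach.1 hy with h | ⟨h1, x, hx, hj⟩
  · exact mem_reach.2 (Or.inl h)
  · exact mem_reach.2 (Or.inr ⟨h1, x, hx, JoinIn_om_mono hAB (Set.Subset.refl _) hj⟩)

/-- the explored set is closed under open steps inside `D` -/
private theorem C_Reach_step {A : Finset (Ed d)} {D C : Finset (V d)} {b c : V d}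
    (hb : b ∈ reach A D C) (hbD : b ∈ D) (hcD : c ∈ D) (h : Adj (om A) b c) :
    c ∈ reach A D C := by
  have hstep : (b ∈ (D : Set (V d)) ∧ c ∈ (D : Set (V d)) ∧ Adj (om A) b c) :=
    ⟨Finset.mem_coe.2 hbD, Finset.mem_coe.2 hcD, h⟩
  rcases mem_reach.1 hb with h1 | ⟨_, x, hx, hj⟩
  · exact mem_reach.2 (Or.inr ⟨hcD, b, h1, Relation.ReflTransGen.single hstep⟩)
  · exact mem_reach.2 (Or.inr ⟨hcD, x, hx, Relation.ReflTransGen.tail hj hstep⟩)

/-- every vertex of an open path inside `D` from `C` is explored -/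
private theorem C_Reach_path {A : Finset (Ed d)} {D C : Finset (V d)} {x y : V d}
    (hx : x ∈ C) (hj : JoinIn (om A) (D : Set (V d)) x y) : y ∈ reach A D C := by
  by_cases hxy : x = y
  · subst hxy
    exact mem_reach.2 (Or.inl hx)
  · exact mem_reach.2 (Or.inr ⟨Finset.mem_coe.1 (JoinIn_mem hj hxy).2, x, hx, hj⟩)

theorem reach_inter (A : Finset (Ed d)) (D C : Finset (V d)) :
    reach (A ∩ eIn D) D C = reach A D C := by
  have h : (A ∩ eIn D) ∩ eIn D = A ∩ eIn D := by
    rw [Finset.inter_assoc, Finset.inter_self]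
  ext y
  rw [mem_reach, mem_reach]
  constructor
  · rintro (h1 | ⟨h1, x, hx, hj⟩)
    · exact Or.inl h1
    · exact Or.inr ⟨h1, x, hx, (JoinIn_om_congr h x y).1 hj⟩
  · rintro (h1 | ⟨h1, x, hx, hj⟩)
    · exact Or.inl h1
    · exact Or.inr ⟨h1, x, hx, (JoinIn_om_congr h x y).2 hj⟩

theorem reach_local {A A' : Finset (Ed d)} {D C : Finset (V d)}
    (h : ∀ e ∈ eIn D, tch (reach A D C) e → (e ∈ A ↔ e ∈ A')) : reach A' D C = reach A D C := by
  ext y
  constructor
  · intro hy
    rcases mem_reach.1 hy with h1 | ⟨_, x, hx, hj⟩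
    · exact mem_reach.2 (Or.inl h1)
    · clear hy
      unfold JoinIn at hj
      induction hj with
      | refl => exact mem_reach.2 (Or.inl hx)
      | @tail b c hxb hbc ih =>
        obtain ⟨hbD, hcD, hadj⟩ := hbc
        have hbr : b ∈ reach A D C := ih (Finset.mem_coe.1 hbD)
        refine C_Reach_step hbr (Finset.mem_coe.1 hbD) (Finset.mem_coe.1 hcD) ?_
        rw [Adj_om] at hadj ⊢
        obtain ⟨δ, h1, h2⟩ := hadj
        refine ⟨δ, ?_, h2⟩
        subst h2
        refine (h (ed b δ) ?_ ?_).2 h1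
        · rw [ed_mem_eIn]
          exact ⟨Finset.mem_coe.1 hbD, Finset.mem_coe.1 hcD⟩
        · rw [tch_ed]
          exact Or.inl hbr
  · intro hy
    rcases mem_reach.1 hy with h1 | ⟨_, x, hx, hj⟩
    · exact mem_reach.2 (Or.inl h1)
    · clear hy
      unfold JoinIn at hj
      induction hj with
      | refl => exact mem_reach.2 (Or.inl hx)
      | @tail b c hxb hbc ih =>
        obtain ⟨hbD, hcD, hadj⟩ := hbc
        have hbr : b ∈ reach A D C := C_Reach_path hx hxb
        have hbr' : b ∈ reach A' D C := ih (Finset.mem_coe.1 hbD)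
        refine C_Reach_step hbr' (Finset.mem_coe.1 hbD) (Finset.mem_coe.1 hcD) ?_
        rw [Adj_om] at hadj ⊢
        obtain ⟨δ, h1, h2⟩ := hadj
        refine ⟨δ, ?_, h2⟩
        subst h2
        refine (h (ed b δ) ?_ ?_).1 h1
        · rw [ed_mem_eIn]
          exact ⟨Finset.mem_coe.1 hbD, Finset.mem_coe.1 hcD⟩
        · rw [tch_ed]
          exact Or.inl hbr

theorem reach_trans {A A' B : Finset (Ed d)} {D L C : Finset (V d)} (hDL : D ⊆ L) (hA : A ⊆ B)
    (hA' : A' ⊆ B) : reach A' L (reach A D C) ⊆ reach B L C := by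
  have hDL' : (D : Set (V d)) ⊆ (L : Set (V d)) := Finset.coe_subset.2 hDL
  intro y hy
  rcases mem_reach.1 hy with h1 | ⟨hyL, x, hx, hj⟩
  · rcases mem_reach.1 h1 with h2 | ⟨_, x, hx, hj⟩
    · exact mem_reach.2 (Or.inl h2)
    · exact C_Reach_path hx (JoinIn_om_mono hA hDL' hj)
  · rcases mem_reach.1 hx with h2 | ⟨_, x', hx', hj'⟩
    · exact C_Reach_path h2 (JoinIn_om_mono hA' (Set.Subset.refl _) hj)
    · exact C_Reach_path hx' (Relation.ReflTransGen.trans (JoinIn_om_mono hA hDL' hj')
        (JoinIn_om_mono hA' (Set.Subset.refl _) hj))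

private theorem C_Reach_inside1 {A A' : Finset (Ed d)} {L S : Finset (V d)}
    (h : ∀ e ∈ eIn L, ¬ (e.1 ∈ S ∧ e.1 + Pi.single e.2 1 ∈ S) → (e ∈ A → e ∈ A')) :
    reach A L S ⊆ reach A' L S := by
  intro y hy
  rcases mem_reach.1 hy with h1 | ⟨_, x, hx, hj⟩
  · exact mem_reach.2 (Or.inl h1)
  · clear hy
    unfold JoinIn at hj
    induction hj with
    | refl => exact mem_reach.2 (Or.inl hx)
    | @tail b c hxb hbc ih =>
      obtain ⟨hbD, hcD, hadj⟩ := hbc
      by_cases hcS : c ∈ S
      · exact mem_reach.2 (Or.inl hcS)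
      · refine C_Reach_step (ih (Finset.mem_coe.1 hbD)) (Finset.mem_coe.1 hbD) (Finset.mem_coe.1 hcD) ?_
        rw [Adj_om] at hadj ⊢
        obtain ⟨δ, h1, h2⟩ := hadj
        refine ⟨δ, ?_, h2⟩
        subst h2
        refine h (ed b δ) ?_ ?_ h1
        · rw [ed_mem_eIn]
          exact ⟨Finset.mem_coe.1 hbD, Finset.mem_coe.1 hcD⟩
        · rintro ⟨h3, h4⟩
          apply hcS
          obtain ⟨i, s⟩ := δ
          cases s with
          | true =>
            have h5 : (st (i, true) : V d) = Pi.single i 1 := by simp [st]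
            rw [h5]
            simpa [ed] using h4
          | false => simpa [ed] using h3

/-- edges inside the starting set do not matter -/
theorem reach_inside {A A' : Finset (Ed d)} {L S : Finset (V d)}
    (h : ∀ e ∈ eIn L, ¬ (e.1 ∈ S ∧ e.1 + Pi.single e.2 1 ∈ S) → (e ∈ A ↔ e ∈ A')) :
    reach A' L S = reach A L S :=
  Finset.Subset.antisymm (C_Reach_inside1 (fun e he hn => (h e he hn).2))
    (C_Reach_inside1 (fun e he hn => (h e he hn).1))

end Ein99.GMA
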