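import Pool.Agent.LibGM77.P_Merge
import Pool.Agent.LibGM77.C_Reach

/-!
TASK C_Compare. The comparison lemma.

Write `S A = reach A D C`. Split the edges `eIn L = eIn D ∪ (eIn L \ eIn D)` (`Ex_union`), and on
`eIn D` use `Ex_merge q a r`. So the right side is
`E_{A ~ a on eIn D} E_{B ~ r on eIn D} E_{G ~ q on eIn L \ eIn D} f (reach (A ∪ B ∪ G) L C)`.
Insert `1 = ∑_{S ∈ 𝒮} ind (S A = S)` where `𝒮 = (C ∪ D).powerset` (or the image of
`(eIn D).powerset`), `Ex_sum`. For fixed `S` let `T = (eIn D).filter (tch S)`, `T' = eIn D \ T`.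
`ind (S A = S)` only depends on `A ∩ T` (`reach_local` in both directions), and on this event
`f (reach (A ∪ B ∪ G) L C) ≥ f (reach ((A \ T) ∪ B ∪ G) L S)` (`reach_trans`, `hf`). The latter only
depends on `A ∩ T'`, so by independence (`Ex_union` on `T`, `T'`) the term is at least
`Ex (eIn D) a (ind (S A = S)) * E_{A' ~ a on T'} E_{B ~ r} E_G f (reach (A' ∪ B ∪ G) L S)`, and
by `Ex_merge` on `T'` and `Ex_union` the second factor is
`Ex (eIn L) (q_S) (fun B => f (reach B L S))` with `q_S e = r e` on `T`, `q e` otherwise.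
Sum over `S` to get the left side.
-/

namespace Ein99.GMA

variable {d : ℕ}

open Classical in
/-- the split of `eIn L` for fixed explored set `S` -/
private theorem compare_split (L D S : Finset (V d)) (hDL : D ⊆ L) (a r q : Ed d → ℝ)
    (h : ∀ e ∈ eIn D, 1 - q e = (1 - a e) * (1 - r e)) (f : Finset (V d) → ℝ) :
    Ex (eIn L) (fun e => if e ∈ eIn D ∧ tch S e then r e else q e) (fun B => f (reach B L S))
      = Ex (eIn D) a (fun A => Ex (eIn D) r (fun B => Ex (eIn L \ eIn D) q
          (fun G => f (reach ((A \ (eIn D).filter (fun e => tch S e)) ∪ B ∪ G) L S)))) := by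
  set I := eIn D with hI
  set T := I.filter (fun e => tch S e) with hT
  set K := eIn L \ I with hK
  have hIL : I ⊆ eIn L := eIn_mono hDL
  have hTI : T ⊆ I := Finset.filter_subset _ _
  have hu : eIn L = I ∪ K := by rw [hK, Finset.union_sdiff_of_subset hIL]
  have hd : Disjoint I K := by rw [hK]; exact Finset.disjoint_sdiff
  have huI : I = T ∪ (I \ T) := by rw [Finset.union_sdiff_of_subset hTI]
  have hdI : Disjoint T (I \ T) := Finset.disjoint_sdiff
  -- right side: reduce the `a` layer to `I \ T`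
  have hR : Ex I a (fun A => Ex I r (fun B => Ex K q
          (fun G => f (reach ((A \ T) ∪ B ∪ G) L S))))
      = Ex (I \ T) a (fun A => Ex T r (fun B1 => Ex (I \ T) r (fun B2 => Ex K q
          (fun G => f (reach (A ∪ (B1 ∪ B2) ∪ G) L S))))) := by
    rw [Ex_local (G := I \ T) Finset.sdiff_subset a]
    · refine Ex_congr (fun e _ => rfl) (fun A hA => ?_)
      have hAT : A \ T = A := by
        rw [Finset.sdiff_eq_self_iff_disjoint]
        exact Finset.disjoint_of_subset_left hA Finset.sdiff_disjoint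
      rw [hAT]
      conv_lhs => rw [huI]
      rw [Ex_union hdI]
    · intro A hA
      have : (A ∩ (I \ T)) \ T = A \ T := by
        ext e
        simp only [Finset.mem_sdiff, Finset.mem_inter]
        constructor
        · rintro ⟨⟨h1, _⟩, h3⟩
          exact ⟨h1, h3⟩
        · rintro ⟨h1, h2⟩
          exact ⟨⟨h1, hA h1, h2⟩, h2⟩
      simp only [this]
  rw [hR, Ex_comm]
  -- left side
  obtain ⟨qS, hqS⟩ : ∃ qS : Ed d → ℝ, qS = fun e => if e ∈ I ∧ tch S e then r e else q e :=
    ⟨_, rfl⟩
  have hqT : ∀ e ∈ T, qS e = r e := by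
    intro e he
    have h1 := Finset.mem_filter.1 he
    rw [hqS]
    exact if_pos h1
  have hqT' : ∀ e ∈ I \ T, qS e = q e := by
    intro e he
    rw [hqS]
    refine if_neg (fun h1 => ?_)
    exact (Finset.mem_sdiff.1 he).2 (Finset.mem_filter.2 h1)
  have hqK : ∀ e ∈ K, qS e = q e := by
    intro e he
    rw [hqS]
    refine if_neg (fun h1 => ?_)
    exact (Finset.mem_sdiff.1 he).2 h1.1
  rw [← hqS]
  clear hqS
  rw [hu, Ex_union hd]
  conv_lhs => rw [huI]
  rw [Ex_union hdI]
  refine Ex_congr hqT (fun B1 hB1 => ?_)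
  have e1 : Ex (I \ T) qS (fun B => Ex K qS (fun G => f (reach (B1 ∪ B ∪ G) L S)))
      = Ex (I \ T) q (fun B => Ex K q (fun G => f (reach (B1 ∪ B ∪ G) L S))) :=
    Ex_congr hqT' (fun B _ => Ex_congr hqK (fun G _ => rfl))
  rw [e1, Ex_merge (F := I \ T) q a r (fun e he => h e (Finset.sdiff_subset he))]
  refine Ex_congr (fun e _ => rfl) (fun A _ => Ex_congr (fun e _ => rfl)
    (fun B2 _ => Ex_congr (fun e _ => rfl) (fun G _ => ?_)))
  have e2 : B1 ∪ (A ∪ B2) ∪ G = A ∪ (B1 ∪ B2) ∪ G := by
    ext e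
    simp only [Finset.mem_union]
    tauto
  rw [e2]

open Classical in
theorem compare (L D C : Finset (V d)) (hDL : D ⊆ L) (a r q : Ed d → ℝ)
    (ha : ∀ e, 0 ≤ a e ∧ a e ≤ 1) (hr : ∀ e, 0 ≤ r e ∧ r e ≤ 1) (hq : ∀ e, 0 ≤ q e ∧ q e ≤ 1)
    (h : ∀ e ∈ eIn D, 1 - q e = (1 - a e) * (1 - r e))
    (f : Finset (V d) → ℝ) (hf : ∀ S T, S ⊆ T → f S ≤ f T) (hf0 : ∀ S, 0 ≤ f S) :
    Ex (eIn D) a (fun A => Ex (eIn L)
        (fun e => if e ∈ eIn D ∧ tch (reach A D C) e then r e else q e)
        (fun B => f (reach B L (reach A D C))))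
      ≤ Ex (eIn L) q (fun A => f (reach A L C)) := by
  have hIL : eIn D ⊆ eIn L := eIn_mono hDL
  -- abbreviations
  obtain ⟨Ψ, hΨ⟩ : ∃ Ψ : Finset (V d) → ℝ, ∀ S, Ψ S = Ex (eIn L)
      (fun e => if e ∈ eIn D ∧ tch S e then r e else q e) (fun B => f (reach B L S)) :=
    ⟨_, fun S => rfl⟩
  obtain ⟨H, hH⟩ : ∃ H : Finset (Ed d) → ℝ, ∀ A, H A = Ex (eIn D) r (fun B => Ex (eIn L \ eIn D) q
      (fun G => f (reach (A ∪ B ∪ G) L C))) := ⟨_, fun A => rfl⟩
  have hL : Ex (eIn D) a (fun A => Ex (eIn L)
        (fun e => if e ∈ eIn D ∧ tch (reach A D C) e then r e else q e)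
        (fun B => f (reach B L (reach A D C))))
      = ∑ S ∈ (C ∪ D).powerset, Ex (eIn D) a (fun A => ind (reach A D C = S) * Ψ S) := by
    rw [← Ex_sum]
    refine Ex_congr (fun e _ => rfl) (fun A _ => ?_)
    rw [← hΨ (reach A D C)]
    rw [Finset.sum_eq_single (reach A D C)]
    · rw [ind_true rfl, one_mul]
    · intro S _ hne
      rw [ind_false (fun h1 => hne h1.symm), zero_mul]
    · intro h1
      exact absurd (Finset.mem_powerset.2 (reach_subset A D C)) h1
  have hRt : Ex (eIn L) q (fun A => f (reach A L C))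
      = ∑ S ∈ (C ∪ D).powerset, Ex (eIn D) a (fun A => ind (reach A D C = S) * H A) := by
    have hu : eIn L = eIn D ∪ (eIn L \ eIn D) := by rw [Finset.union_sdiff_of_subset hIL]
    rw [← Ex_sum]
    have h1 : Ex (eIn L) q (fun A => f (reach A L C)) = Ex (eIn D) a H := by
      conv_lhs => rw [hu]
      rw [Ex_union Finset.disjoint_sdiff, Ex_merge (F := eIn D) q a r h]
      refine Ex_congr (fun e _ => rfl) (fun A _ => ?_)
      rw [hH]
    rw [h1]
    refine Ex_congr (fun e _ => rfl) (fun A _ => ?_)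
    rw [Finset.sum_eq_single (reach A D C)]
    · rw [ind_true rfl, one_mul]
    · intro S _ hne
      rw [ind_false (fun h1 => hne h1.symm), zero_mul]
    · intro h1
      exact absurd (Finset.mem_powerset.2 (reach_subset A D C)) h1
  rw [hL, hRt]
  refine Finset.sum_le_sum (fun S _ => ?_)
  -- the set of touching edges
  set T := (eIn D).filter (fun e => tch S e) with hT
  have hloc : ∀ A : Finset (Ed d), (reach A D C = S ↔ reach (A ∩ T) D C = S) := by
    intro A
    constructor
    · intro hA
      rw [← hA]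
      refine reach_local (fun e he ht => ?_)
      rw [hA] at ht
      constructor
      · intro h1
        exact Finset.mem_inter.2 ⟨h1, Finset.mem_filter.2 ⟨he, ht⟩⟩
      · intro h1
        exact (Finset.mem_inter.1 h1).1
    · intro hA
      rw [← hA]
      refine reach_local (fun e he ht => ?_)
      rw [hA] at ht
      constructor
      · intro h1
        exact (Finset.mem_inter.1 h1).1
      · intro h1
        exact Finset.mem_inter.2 ⟨h1, Finset.mem_filter.2 ⟨he, ht⟩⟩
  obtain ⟨H', hH'⟩ : ∃ H' : Finset (Ed d) → ℝ, ∀ A, H' A = Ex (eIn D) r (fun B =>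
      Ex (eIn L \ eIn D) q (fun G => f (reach ((A \ T) ∪ B ∪ G) L S))) := ⟨_, fun A => rfl⟩
  have hle : ∀ A, A ⊆ eIn D → ind (reach A D C = S) * H' A ≤ ind (reach A D C = S) * H A := by
    intro A _
    by_cases hA : reach A D C = S
    · rw [ind_true hA, one_mul, one_mul, hH, hH']
      refine Ex_mono (fun e _ => hr e) (fun B _ => Ex_mono (fun e _ => hq e) (fun G _ => ?_))
      refine hf _ _ ?_
      have h1 : reach ((A \ T) ∪ B ∪ G) L (reach A D C) ⊆ reach (A ∪ B ∪ G) L C := by
        refine reach_trans hDL ?_ ?_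
        · intro e he
          exact Finset.mem_union_left _ (Finset.mem_union_left _ he)
        · intro e he
          rcases Finset.mem_union.1 he with h2 | h2
          · rcases Finset.mem_union.1 h2 with h3 | h3
            · exact Finset.mem_union_left _ (Finset.mem_union_left _ (Finset.mem_sdiff.1 h3).1)
            · exact Finset.mem_union_left _ (Finset.mem_union_right _ h3)
          · exact Finset.mem_union_right _ h2
      rwa [hA] at h1
    · rw [ind_false hA, zero_mul, zero_mul]
  refine le_trans (le_of_eq ?_) (Ex_mono (fun e _ => ha e) hle)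
  -- independence
  have hind : Ex (eIn D) a (fun A => ind (reach A D C = S) * H' A)
      = Ex (eIn D) a (fun A => ind (reach A D C = S)) * Ex (eIn D) a H' := by
    refine Ex_indep (G := T) a _ _ (fun A _ => ?_) (fun A _ => ?_)
    · have := hloc A
      by_cases hA : reach A D C = S
      · rw [ind_true hA, ind_true (this.1 hA)]
      · rw [ind_false hA, ind_false (fun h1 => hA (this.2 h1))]
    · rw [hH', hH']
      have : (A \ T) \ T = A \ T := by
        ext e
        simp only [Finset.mem_sdiff]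
        tauto
      rw [this]
  rw [hind]
  have hΨ2 : Ψ S = Ex (eIn D) a H' := by
    rw [hΨ, compare_split L D S hDL a r q h f]
    refine Ex_congr (fun e _ => rfl) (fun A _ => ?_)
    rw [hH']
  rw [← hΨ2]
  have : (fun A => ind (reach A D C = S) * Ψ S) = fun A => Ψ S * ind (reach A D C = S) := by
    funext A
    ring
  rw [this, Ex_mul]
  ring

end Ein99.GMA
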