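import Pool.Agent.LibGM77.Defs
import Pool.Agent.LibEin99.C_Chain
import Pool.Agent.LibEin99.C_Loc2
import Pool.Agent.LibEin99.H_Outside

/-!
TASK C_Om. Open paths in configurations with finitely many open edges.

`Adj_om`: `opn (om A) x δ ↔ ed x δ ∈ A` by `decide_eq_true_iff`. `ed_mem_eIn`: as `ed_mem_EB` in C_Loc2.
`JoinIn_om_mono`, `JoinIn_om_congr`: `Relation.ReflTransGen.mono`; the edges used by a path inside `D`
belong to `eIn D`. `box_open`: if all edges of the box are open then any two vertices of the box are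
joined inside it (`box_connected`, H_Outside, and `NJoin` steps are open).
-/

namespace Ein99.GMA

variable {d : ℕ}

theorem opn_om (A : Finset (Ed d)) (x : V d) (δ : Dir d) : opn (om A) x δ ↔ ed x δ ∈ A := by
  unfold opn om
  exact decide_eq_true_iff

theorem Adj_om (A : Finset (Ed d)) (x y : V d) :
    Adj (om A) x y ↔ ∃ δ : Dir d, ed x δ ∈ A ∧ y = x + st δ := by
  unfold Adj
  simp only [opn_om]

private theorem C_Om_mem_eIn (D : Finset (V d)) (e : Ed d) :
    e ∈ eIn D ↔ e.1 ∈ D ∧ e.1 + Pi.single e.2 1 ∈ D := by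
  simp [eIn]

private theorem C_Om_st_true (i : Fin d) : (st (i, true) : V d) = Pi.single i 1 := by
  simp [st]

private theorem C_Om_st_false (i : Fin d) (x : V d) :
    x + st (i, false) + Pi.single i 1 = x := by
  have h : (st (i, true) : V d) = - st (i, false) := by
    have := st_rv (d := d) (i, false)
    simpa [rv] using this
  rw [← C_Om_st_true, h, add_neg_cancel_right]

theorem ed_mem_eIn (D : Finset (V d)) (x : V d) (δ : Dir d) :
    ed x δ ∈ eIn D ↔ x ∈ D ∧ x + st δ ∈ D := by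
  rw [C_Om_mem_eIn]
  obtain ⟨i, b⟩ := δ
  cases b with
  | true => simp [ed, C_Om_st_true]
  | false =>
    simp only [ed, Bool.false_eq_true, if_false]
    rw [C_Om_st_false]
    exact and_comm

theorem eIn_mono {D L : Finset (V d)} (h : D ⊆ L) : eIn D ⊆ eIn L := by
  intro e he
  rw [C_Om_mem_eIn] at he ⊢
  exact ⟨h he.1, h he.2⟩

/-- `tch S` in terms of a step. -/
theorem tch_ed (S : Finset (V d)) (x : V d) (δ : Dir d) :
    tch S (ed x δ) ↔ x ∈ S ∨ x + st δ ∈ S := by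
  unfold tch
  obtain ⟨i, b⟩ := δ
  cases b with
  | true => simp [ed, C_Om_st_true]
  | false =>
    simp only [ed, Bool.false_eq_true, if_false]
    rw [C_Om_st_false]
    exact or_comm

private theorem C_Om_mono {S T : Set (V d)} {ω ω' : Om d}
    (h : ∀ a b : V d, a ∈ S → b ∈ S → Adj ω a b → a ∈ T ∧ b ∈ T ∧ Adj ω' a b)
    {x y : V d} (hj : JoinIn ω S x y) : JoinIn ω' T x y := by
  induction hj with
  | refl => exact Relation.ReflTransGen.refl
  | tail _ hbc ih => exact Relation.ReflTransGen.tail ih (h _ _ hbc.1 hbc.2.1 hbc.2.2)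

theorem JoinIn_om_mono {A B : Finset (Ed d)} {S T : Set (V d)} (hAB : A ⊆ B) (hST : S ⊆ T)
    {x y : V d} (h : JoinIn (om A) S x y) : JoinIn (om B) T x y := by
  refine C_Om_mono (fun a b ha hb hab => ⟨hST ha, hST hb, ?_⟩) h
  rw [Adj_om] at hab ⊢
  obtain ⟨δ, h1, h2⟩ := hab
  exact ⟨δ, hAB h1, h2⟩

private theorem C_Om_congr1 {A B : Finset (Ed d)} {D : Finset (V d)} (h : A ∩ eIn D = B ∩ eIn D)
    {x y : V d} (hj : JoinIn (om A) (D : Set (V d)) x y) : JoinIn (om B) (D : Set (V d)) x y := by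
  refine C_Om_mono (fun a b ha hb hab => ⟨ha, hb, ?_⟩) hj
  rw [Adj_om] at hab ⊢
  obtain ⟨δ, h1, h2⟩ := hab
  refine ⟨δ, ?_, h2⟩
  have h3 : ed a δ ∈ A ∩ eIn D := by
    rw [Finset.mem_inter, ed_mem_eIn]
    subst h2
    exact ⟨h1, Finset.mem_coe.1 ha, Finset.mem_coe.1 hb⟩
  rw [h] at h3
  exact (Finset.mem_inter.1 h3).1

/-- only the edges inside `D` matter -/
theorem JoinIn_om_congr {A B : Finset (Ed d)} {D : Finset (V d)} (h : A ∩ eIn D = B ∩ eIn D)
    (x y : V d) : JoinIn (om A) (D : Set (V d)) x y ↔ JoinIn (om B) (D : Set (V d)) x y :=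
  ⟨C_Om_congr1 h, C_Om_congr1 h.symm⟩

theorem ToBd_om_mono {A B : Finset (Ed d)} (hAB : A ⊆ B) {r : ℕ} {z x : V d}
    (h : ToBd (om A) r z x) : ToBd (om B) r z x := by
  obtain ⟨y, hy, hj⟩ := h
  exact ⟨y, hy, JoinIn_om_mono hAB (Set.Subset.refl _) hj⟩

theorem ToBd_om_congr {A B : Finset (Ed d)} {r : ℕ} {z : V d} (h : A ∩ EB r z = B ∩ EB r z)
    (x : V d) : ToBd (om A) r z x ↔ ToBd (om B) r z x := by
  have h' : A ∩ eIn (Bx r z) = B ∩ eIn (Bx r z) := h
  unfold ToBd
  constructor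
  · rintro ⟨y, hy, hj⟩
    exact ⟨y, hy, (JoinIn_om_congr h' x y).1 hj⟩
  · rintro ⟨y, hy, hj⟩
    exact ⟨y, hy, (JoinIn_om_congr h' x y).2 hj⟩

theorem box_open {A : Finset (Ed d)} {r : ℕ} {z : V d} (h : EB r z ⊆ A) {x y : V d}
    (hx : x ∈ Bx r z) (hy : y ∈ Bx r z) : JoinIn (om A) (Bx r z : Set (V d)) x y := by
  have hN := box_connected r z x y hx hy
  unfold NJoin at hN
  induction hN with
  | refl => exact Relation.ReflTransGen.refl
  | tail _ hbc ih =>
    obtain ⟨hb, hc, δ, hδ⟩ := hbc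
    refine Relation.ReflTransGen.tail (ih (Finset.mem_coe.1 hb)) ⟨hb, hc, ?_⟩
    rw [Adj_om]
    refine ⟨δ, h ?_, hδ⟩
    rw [ed_mem_EB]
    subst hδ
    exact ⟨Finset.mem_coe.1 hb, Finset.mem_coe.1 hc⟩

/-- a path which ends outside `S` (and starts in `S`) stays in `D` -/
theorem JoinIn_mem {ω : Om d} {S : Set (V d)} {x y : V d} (h : JoinIn ω S x y) (hxy : x ≠ y) :
    x ∈ S ∧ y ∈ S := by
  constructor
  · rcases Relation.ReflTransGen.cases_head h with h1 | ⟨c, h1, _⟩
    · exact absurd h1 hxy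
    · exact h1.1
  · rcases Relation.ReflTransGen.cases_tail h with h1 | ⟨c, _, h1⟩
    · exact absurd h1.symm hxy
    · exact h1.2.1

end Ein99.GMA
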