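import Pool.Agent.LibGM77.D_Geo

/-!
TASK D_Inv. The invariants are preserved.

`Inv_next`: `hz0`, `hocc`, `hvac`, `hdis`: the new site `z = w.1 + st w.2` is in `Bx P.R 0`, not in
`s.occ`, not in `s.vac`. `hsd`, `hcube`: `next_sd`. `hC`: `reach_subset` and `Dm_subset''`.
`hc`: if the new counter of `e` is not zero, either `e` touches the new cluster, or the old counter is
not zero and `e` touches the old cluster, which is contained in the new one (`subset_reach`).
`hcount`: if `e` is counted then `e ∈ eIn (Dm P s w)`, so `e.1 ∈ Dm P s w ⊆ Bx (4N) (N • z)`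
(`Dm_subset'`), and the new filter set contains the old one and the new element `z`; if not, the old
filter set is contained in the new one. In both cases `(nxw ..).occ ∪ (nxw ..).vac =
insert z (s.occ ∪ s.vac)` (lemma `union_next`).
`count_lt`: for a possible move and `e ∈ eIn (Dm P s w)`: the sites `z'` with
`e.1 ∈ Bx (4N) (N • z')` are contained in a product of integer intervals with at most `9` elements
each (`|e.1 i - N z' i| ≤ 4 N`), and `z` is one of them but is not in `s.occ ∪ s.vac`.
-/

namespace Ein99.GMA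

variable {d : ℕ}

theorem union_next (P : Par d) (s : St d) (w : V d × Dir d) (A : Finset (Ed d)) :
    (nxw P s w A).occ ∪ (nxw P s w A).vac = insert (w.1 + st w.2) (s.occ ∪ s.vac) := by
  classical
  unfold nxw
  dsimp only
  split_ifs with h
  · rw [Finset.insert_union]
  · rw [Finset.union_insert]

theorem DI_occ_sub (P : Par d) (s : St d) (w : V d × Dir d) (A : Finset (Ed d)) :
    s.occ ⊆ (nxw P s w A).occ ∧ (nxw P s w A).occ ⊆ insert (w.1 + st w.2) s.occ := by
  classical
  unfold nxw
  dsimp only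
  split_ifs with h
  · exact ⟨Finset.subset_insert _ _, fun x hx => hx⟩
  · exact ⟨fun x hx => hx, Finset.subset_insert _ _⟩

theorem DI_vac_sub (P : Par d) (s : St d) (w : V d × Dir d) (A : Finset (Ed d)) :
    s.vac ⊆ (nxw P s w A).vac ∧ (nxw P s w A).vac ⊆ insert (w.1 + st w.2) s.vac := by
  classical
  unfold nxw
  dsimp only
  split_ifs with h
  · exact ⟨fun x hx => hx, Finset.subset_insert _ _⟩
  · exact ⟨Finset.subset_insert _ _, fun x hx => hx⟩

theorem Inv_next (P : Par d) {z0 : V d} {s : St d} (hs : Inv P z0 s) {w : V d × Dir d}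
    (hw : Cd P s w) (A : Finset (Ed d)) : Inv P z0 (nxw P s w A) := by
  classical
  have hC' : (nxw P s w A).C = reach A (Dm P s w) s.C := rfl
  refine ⟨(DI_occ_sub P s w A).1 hs.hz0, ?_, ?_, ?_, ?_, ?_, ?_, ?_, ?_⟩
  · intro x hx
    rcases Finset.mem_insert.1 ((DI_occ_sub P s w A).2 hx) with h | h
    · rw [h]; exact hw.2.1
    · exact hs.hocc h
  · intro x hx
    rcases Finset.mem_insert.1 ((DI_vac_sub P s w A).2 hx) with h | h
    · rw [h]; exact hw.2.1
    · exact hs.hvac h
  · unfold nxw
    dsimp only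
    split_ifs with h
    · rw [Finset.disjoint_insert_left]
      exact ⟨hw.2.2.2, hs.hdis⟩
    · rw [Finset.disjoint_insert_right]
      exact ⟨hw.2.2.1, hs.hdis⟩
  · exact fun z hz => (next_sd P hs hw A z hz).1
  · exact fun z hz => (next_sd P hs hw A z hz).2
  · rw [hC']
    refine (reach_subset A (Dm P s w) s.C).trans ?_
    exact Finset.union_subset hs.hC (Dm_subset'' P hs hw)
  · intro e he
    have hsubC : s.C ⊆ (nxw P s w A).C := subset_reach A (Dm P s w) s.C
    have hold : s.c e ≠ 0 → tch (nxw P s w A).C e := by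
      intro h
      rcases hs.hc e h with h1 | h1
      · exact Or.inl (hsubC h1)
      · exact Or.inr (hsubC h1)
    have hce : (nxw P s w A).c e =
      if e ∈ eIn (Dm P s w) ∧ tch (reach A (Dm P s w) s.C) e then s.c e + 1 else s.c e := rfl
    rw [hce] at he
    split_ifs at he with h
    · exact h.2
    · exact hold he
  · intro e
    have hce : (nxw P s w A).c e =
      if e ∈ eIn (Dm P s w) ∧ tch (reach A (Dm P s w) s.C) e then s.c e + 1 else s.c e := rfl
    rw [union_next, hce]
    have hmono : ((s.occ ∪ s.vac).filter (fun z => e.1 ∈ Bx (4 * P.N) ((P.N : ℤ) • z))) ⊆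
        ((insert (w.1 + st w.2) (s.occ ∪ s.vac)).filter
          (fun z => e.1 ∈ Bx (4 * P.N) ((P.N : ℤ) • z))) :=
      Finset.filter_subset_filter _ (Finset.subset_insert _ _)
    split_ifs with h
    · have h1 : e.1 ∈ Dm P s w := by
        have := h.1
        unfold eIn at this
        rw [Finset.mem_filter, Finset.mem_product] at this
        exact this.1.1
      have h2 := Dm_subset' P hs hw h1
      rw [Finset.filter_insert, if_pos h2, Finset.card_insert_of_notMem]
      · exact Nat.succ_le_succ (hs.hcount e)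
      · intro hc
        rw [Finset.mem_filter, Finset.mem_union] at hc
        rcases hc.1 with h3 | h3
        · exact hw.2.2.1 h3
        · exact hw.2.2.2 h3
    · exact (hs.hcount e).trans (Finset.card_le_card hmono)

theorem Inv_s0 (P : Par d) (hP : P.OK) (z0 : V d) (hz : z0 ∈ Bx P.R (0 : V d)) :
    Inv P z0 (s0 P z0) := by
  classical
  have hz' : ∀ z : V d, (P.N : ℤ) • z ∈ Bx P.N ((P.N : ℤ) • z) := fun z => self_mem_Bx _ _
  refine ⟨?_, ?_, ?_, ?_, ?_, ?_, ?_, ?_, ?_⟩
  · exact Finset.mem_singleton_self z0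
  · intro x hx
    rw [Finset.mem_singleton.1 hx]
    exact hz
  · exact Finset.empty_subset _
  · exact Finset.disjoint_empty_right _
  · intro z _
    exact hz' z
  · intro z hz1
    rw [Finset.mem_singleton.1 hz1]
    exact fun x hx => hx
  · intro x hx
    have hx' : x ∈ Bx P.m ((P.N : ℤ) • z0) := hx
    rw [mem_Bx] at hx' hz ⊢
    intro i
    have h1 := abs_le.1 (hx' i)
    have h2 := abs_le.1 (hz i)
    simp only [Pi.smul_apply, smul_eq_mul, Pi.zero_apply, sub_zero] at h1 h2 ⊢
    have h3 : (P.N : ℤ) = P.n + P.m + 1 := by unfold Par.N; push_cast; ring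
    have h4 : (0 : ℤ) ≤ P.N := by positivity
    have h5 := mul_le_mul_of_nonneg_left h2.1 h4
    have h6 := mul_le_mul_of_nonneg_left h2.2 h4
    have h7 : (0 : ℤ) ≤ P.n := by positivity
    have h8 : (0 : ℤ) ≤ P.m := by positivity
    rw [abs_le]
    push_cast
    constructor <;> nlinarith
  · intro e he
    exact absurd rfl he
  · intro e
    exact Nat.zero_le _

theorem DI_near (N : ℕ) (hN : 1 ≤ N) (v z : V d) (h : v ∈ Bx (4 * N) ((N : ℤ) • z)) :
    z ∈ Bx 4 (fun i => v i / (N : ℤ)) := by
  rw [mem_Bx] at h ⊢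
  intro i
  have h1 := abs_le.1 (h i)
  have hN0 : (0 : ℤ) < N := by exact_mod_cast hN
  have h9 := Int.emod_add_mul_ediv (v i) N
  have h10 := Int.emod_nonneg (v i) hN0.ne'
  have h11 := Int.emod_lt_of_pos (v i) hN0
  simp only [Pi.smul_apply, smul_eq_mul] at h1
  push_cast at h1 ⊢
  rw [abs_le]
  constructor
  · by_contra hc
    push Not at hc
    have := mul_le_mul_of_nonneg_left (a := (N : ℤ)) (show z i - v i / N ≤ -5 by omega) hN0.le
    nlinarith
  · by_contra hc
    push Not at hc
    have := mul_le_mul_of_nonneg_left (a := (N : ℤ)) (show 5 ≤ z i - v i / N by omega) hN0.le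
    nlinarith

theorem count_lt (P : Par d) {z0 : V d} {s : St d} (hs : Inv P z0 s) {w : V d × Dir d}
    (hw : Cd P s w) (e : Ed d) (he : e ∈ eIn (Dm P s w)) : s.c e < Jn d := by
  classical
  have hN : 1 ≤ P.N := by unfold Par.N; omega
  have h1 : e.1 ∈ Dm P s w := by
    unfold eIn at he
    rw [Finset.mem_filter, Finset.mem_product] at he
    exact he.1.1
  have h2 := DI_near P.N hN e.1 _ (Dm_subset' P hs hw h1)
  have h3 : (s.occ ∪ s.vac).filter (fun z => e.1 ∈ Bx (4 * P.N) ((P.N : ℤ) • z)) ⊆
      (Bx 4 (fun i => e.1 i / (P.N : ℤ))).erase (w.1 + st w.2) := by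
    intro z hz
    rw [Finset.mem_filter, Finset.mem_union] at hz
    rw [Finset.mem_erase]
    refine ⟨?_, DI_near P.N hN e.1 z hz.2⟩
    rintro rfl
    rcases hz.1 with h4 | h4
    · exact hw.2.2.1 h4
    · exact hw.2.2.2 h4
  have h4 := Finset.card_le_card h3
  rw [Finset.card_erase_of_mem h2, card_Bx] at h4
  have h5 := hs.hcount e
  have h6 : 0 < 9 ^ d := pow_pos (by norm_num) d
  have h7 : (2 * 4 + 1) ^ d = 9 ^ d := by norm_num
  unfold Jn
  omega

theorem card_next (P : Par d) {s : St d} {w : V d × Dir d} (hw : Cd P s w) (A : Finset (Ed d)) :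
    (Bx P.R (0 : V d) \ ((nxw P s w A).occ ∪ (nxw P s w A).vac)).card + 1
      ≤ (Bx P.R (0 : V d) \ (s.occ ∪ s.vac)).card := by
  classical
  rw [union_next]
  have h1 : w.1 + st w.2 ∈ Bx P.R (0 : V d) \ (s.occ ∪ s.vac) := by
    rw [Finset.mem_sdiff, Finset.mem_union, not_or]
    exact ⟨hw.2.1, hw.2.2.1, hw.2.2.2⟩
  have h2 : Bx P.R (0 : V d) \ (insert (w.1 + st w.2) (s.occ ∪ s.vac)) =
      (Bx P.R (0 : V d) \ (s.occ ∪ s.vac)).erase (w.1 + st w.2) := by
    ext x
    simp only [Finset.mem_sdiff, Finset.mem_insert, Finset.mem_erase, not_or]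
    tauto
  rw [h2, Finset.card_erase_of_mem h1]
  have h3 : 0 < (Bx P.R (0 : V d) \ (s.occ ∪ s.vac)).card := Finset.card_pos.2 ⟨_, h1⟩
  omega

end Ein99.GMA
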