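import Pool.Agent.LibGM77.P_Ex
import Pool.Agent.LibGM77.D_Inv

/-!
TASK D_Op. The operator `Tm P` and its iterates.
-/

namespace Ein99.GMA

variable {d : ℕ}

theorem av_bounds (P : Par d) (hP : P.OK) (s : St d) (e : Ed d) :
    P.δ ≤ av P s e ∧ 0 ≤ av P s e ∧ av P s e ≤ 1 := by
  have h1 := hP.hδ
  have h2 := hP.hp
  have h3 := hP.hp1
  unfold av
  split_ifs
  · exact ⟨h2, by linarith, h3⟩
  · exact ⟨le_refl _, h1.le, by linarith⟩

theorem mv_spec (P : Par d) (s : St d) (h : Act P s) : Cd P s (mv P s h) := h.choose_spec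

theorem Tm_stop (P : Par d) (φ : St d → ℝ) (s : St d) (h : ¬ Act P s) : Tm P φ s = φ s := by
  unfold Tm
  rw [dif_neg h]

theorem Tm_act (P : Par d) (φ : St d → ℝ) (s : St d) (h : Act P s) : Tm P φ s =
    Ex (eIn (Dm P s (mv P s h))) (av P s) (fun A => φ (nxw P s (mv P s h) A)) := by
  unfold Tm
  rw [dif_pos h]

theorem D_Op_mono1 (P : Par d) (hP : P.OK) (z0 : V d) (φ ψ : St d → ℝ)
    (h : ∀ s, Inv P z0 s → φ s ≤ ψ s) (s : St d) (hs : Inv P z0 s) : Tm P φ s ≤ Tm P ψ s := by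
  by_cases ha : Act P s
  · rw [Tm_act P φ s ha, Tm_act P ψ s ha]
    exact Ex_mono (fun e _ => (av_bounds P hP s e).2)
      (fun A _ => h _ (Inv_next P hs (mv_spec P s ha) A))
  · rw [Tm_stop P φ s ha, Tm_stop P ψ s ha]
    exact h s hs

theorem iter_mono (P : Par d) (hP : P.OK) (z0 : V d) (φ ψ : St d → ℝ)
    (h : ∀ s, Inv P z0 s → φ s ≤ ψ s) (k : ℕ) (s : St d) (hs : Inv P z0 s) :
    (Tm P)^[k] φ s ≤ (Tm P)^[k] ψ s := by
  induction k generalizing s with
  | zero => exact h s hs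
  | succ k ih =>
    rw [Function.iterate_succ_apply', Function.iterate_succ_apply']
    exact D_Op_mono1 P hP z0 _ _ (fun s hs => ih s hs) s hs

theorem iter_const (P : Par d) (c : ℝ) (k : ℕ) (s : St d) : (Tm P)^[k] (fun _ => c) s = c := by
  have h1 : Tm P (fun _ => c) = fun _ => c := by
    funext s
    by_cases ha : Act P s
    · rw [Tm_act P _ s ha, Ex_const]
    · rw [Tm_stop P _ s ha]
  rw [Function.iterate_fixed h1]

theorem D_Op_add1 (P : Par d) (φ ψ : St d → ℝ) :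
    Tm P (fun s => φ s + ψ s) = fun s => Tm P φ s + Tm P ψ s := by
  funext s
  by_cases ha : Act P s
  · rw [Tm_act P _ s ha, Tm_act P _ s ha, Tm_act P _ s ha, Ex_add]
  · rw [Tm_stop P _ s ha, Tm_stop P _ s ha, Tm_stop P _ s ha]

theorem iter_add (P : Par d) (φ ψ : St d → ℝ) (k : ℕ) (s : St d) :
    (Tm P)^[k] (fun s => φ s + ψ s) s = (Tm P)^[k] φ s + (Tm P)^[k] ψ s := by
  have h : (Tm P)^[k] (fun s => φ s + ψ s) = fun s => (Tm P)^[k] φ s + (Tm P)^[k] ψ s := by
    induction k with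
    | zero => rfl
    | succ k ih =>
      rw [Function.iterate_succ_apply', ih, D_Op_add1]
      funext s
      rw [Function.iterate_succ_apply', Function.iterate_succ_apply']
  rw [h]

theorem D_Op_sum1 {κ : Type*} (t : Finset κ) (P : Par d) (φ : κ → St d → ℝ) :
    Tm P (fun s => ∑ i ∈ t, φ i s) = fun s => ∑ i ∈ t, Tm P (φ i) s := by
  funext s
  by_cases ha : Act P s
  · rw [Tm_act P _ s ha, Ex_sum t _ _ (fun i A => φ i (nxw P s (mv P s ha) A))]
    exact Finset.sum_congr rfl (fun i _ => (Tm_act P (φ i) s ha).symm)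
  · rw [Tm_stop P _ s ha]
    exact Finset.sum_congr rfl (fun i _ => (Tm_stop P (φ i) s ha).symm)

theorem iter_sum {κ : Type*} (t : Finset κ) (P : Par d) (φ : κ → St d → ℝ) (k : ℕ) (s : St d) :
    (Tm P)^[k] (fun s => ∑ i ∈ t, φ i s) s = ∑ i ∈ t, (Tm P)^[k] (φ i) s := by
  have h : (Tm P)^[k] (fun s => ∑ i ∈ t, φ i s) = fun s => ∑ i ∈ t, (Tm P)^[k] (φ i) s := by
    induction k with
    | zero => rfl
    | succ k ih =>
      rw [Function.iterate_succ_apply', ih, D_Op_sum1]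
      funext s
      exact Finset.sum_congr rfl (fun i _ => by rw [Function.iterate_succ_apply'])
  rw [h]

theorem iter_le (P : Par d) (hP : P.OK) (z0 : V d) (φ : St d → ℝ)
    (h : ∀ s, Inv P z0 s → Tm P φ s ≤ φ s) (k : ℕ) (s : St d) (hs : Inv P z0 s) :
    (Tm P)^[k] φ s ≤ φ s := by
  induction k generalizing s with
  | zero => exact le_refl _
  | succ k ih =>
    rw [Function.iterate_succ_apply']
    exact (D_Op_mono1 P hP z0 _ φ (fun s hs => ih s hs) s hs).trans (h s hs)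

theorem D_Op_not (P : Par d) (φ : St d → ℝ) (k : ℕ) (s : St d) (h : ¬ Act P s) :
    (Tm P)^[k] φ s = φ s := by
  induction k with
  | zero => rfl
  | succ k ih => rw [Function.iterate_succ_apply', Tm_stop P _ s h, ih]

theorem iter_stop (P : Par d) (hP : P.OK) (z0 : V d) (φ ψ : St d → ℝ)
    (h : ∀ s, Inv P z0 s → ¬ Act P s → φ s ≤ ψ s) (k : ℕ) (s : St d) (hs : Inv P z0 s)
    (hk : (Bx P.R (0 : V d) \ (s.occ ∪ s.vac)).card ≤ k) :
    (Tm P)^[k] φ s ≤ (Tm P)^[k] ψ s := by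
  induction k generalizing s with
  | zero =>
    refine h s hs ?_
    rintro ⟨w, h1, h2, h3, h4⟩
    have h5 : w.1 + st w.2 ∈ Bx P.R (0 : V d) \ (s.occ ∪ s.vac) := by
      rw [Finset.mem_sdiff, Finset.mem_union]
      exact ⟨h2, fun h6 => h6.elim h3 h4⟩
    have h6 := Finset.card_pos.2 ⟨_, h5⟩
    omega
  | succ k ih =>
    by_cases ha : Act P s
    · rw [Function.iterate_succ_apply', Function.iterate_succ_apply', Tm_act P _ s ha,
        Tm_act P _ s ha]
      refine Ex_mono (fun e _ => (av_bounds P hP s e).2) (fun A _ => ?_)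
      refine ih _ (Inv_next P hs (mv_spec P s ha) A) ?_
      have := card_next P (mv_spec P s ha) A
      omega
    · rw [D_Op_not P φ _ s ha, D_Op_not P ψ _ s ha]
      exact h s hs ha

end Ein99.GMA
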