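import Pool.Agent.LibGM77.C_Compare
import Pool.Agent.LibGM77.D_Op

/-!
TASK D_F. The probability that the cluster has a good property decreases in mean along the exploration.

`Qv_bounds`: cases. `Qv_step`: `c = 0`: `1 - Qv 0 = (1-p1)(1-δ)^J`, `1 - Qv 1 = (1-δ)^J`; `1 ≤ c < J`:
`(1-δ)^(J+1-c) = (1-δ) (1-δ)^(J+1-(c+1))`.
`Fv_super`: if `¬ Act P s` equality. Otherwise `compare` with `D = Dm P s w ⊆ L` (`Dm_subset''`),
`a = av P s`, `q e = Qv P (s.c e)`, `r e = Qv P (s.c e + 1)`; the state after the move has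
`C = reach A D s.C` and counters `s.c e + 1` exactly on the edges of `eIn D` touching it, so the inner
expectation in `compare` is `Fv P L f (nxw P s w A)` (by `Ex_congr` or `rfl` after `ite` manipulations).
`count_lt` gives the hypothesis of `Qv_step`.
`Fv_ge`: `subset_reach`, `Ex_mono`, `Ex_const`.
-/

namespace Ein99.GMA

variable {d : ℕ}

theorem Qv_bounds (P : Par d) (hP : P.OK) (c : ℕ) : 0 ≤ Qv P c ∧ Qv P c ≤ 1 := by
  have h1 : 0 ≤ 1 - P.p1 := sub_nonneg.mpr hP.hp1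
  have h2 : 1 - P.p1 ≤ 1 := by linarith [hP.hδ, hP.hp]
  have h3 : 0 ≤ 1 - P.δ := by linarith [hP.hp, hP.hp1]
  have h4 : 1 - P.δ ≤ 1 := by linarith [hP.hδ]
  unfold Qv
  split_ifs with hc
  · have h5 : 0 ≤ (1 - P.δ) ^ Jn d := pow_nonneg h3 _
    have h6 : (1 - P.δ) ^ Jn d ≤ 1 := pow_le_one₀ h3 h4
    have h7 := mul_nonneg h1 h5
    have h8 := mul_le_one₀ h2 h5 h6
    constructor <;> linarith
  · have h5 : 0 ≤ (1 - P.δ) ^ (Jn d + 1 - c) := pow_nonneg h3 _
    have h6 : (1 - P.δ) ^ (Jn d + 1 - c) ≤ 1 := pow_le_one₀ h3 h4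
    constructor <;> linarith

theorem Qv_step (P : Par d) (s : St d) (e : Ed d) (h : s.c e < Jn d) :
    1 - Qv P (s.c e) = (1 - av P s e) * (1 - Qv P (s.c e + 1)) := by
  unfold Qv av
  by_cases hc : s.c e = 0
  · rw [if_pos hc, if_pos hc, if_neg (Nat.succ_ne_zero _), hc]
    have h1 : Jn d + 1 - (0 + 1) = Jn d := by omega
    rw [h1]
    ring
  · rw [if_neg hc, if_neg hc, if_neg (Nat.succ_ne_zero _)]
    have h1 : Jn d + 1 - s.c e = (Jn d + 1 - (s.c e + 1)) + 1 := by omega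
    rw [h1, pow_succ]
    ring

theorem Fv_super (P : Par d) (hP : P.OK) (L : Finset (V d))
    (hL : Bx (P.N * (P.R + 3)) (0 : V d) ⊆ L)
    (f : Finset (V d) → ℝ) (hf : ∀ S T, S ⊆ T → f S ≤ f T) (hf0 : ∀ S, 0 ≤ f S) {z0 : V d}
    {s : St d} (hs : Inv P z0 s) : Tm P (Fv P L f) s ≤ Fv P L f s := by
  classical
  by_cases h : Act P s
  · rw [Tm_act P _ s h]
    have hw := mv_spec P s h
    generalize mv P s h = w at hw ⊢
    have hD : Dm P s w ⊆ L := (Dm_subset'' P hs hw).trans hL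
    have hcmp := compare L (Dm P s w) s.C hD (av P s) (fun e => Qv P (s.c e + 1))
      (fun e => Qv P (s.c e)) (fun e => (av_bounds P hP s e).2)
      (fun e => Qv_bounds P hP _) (fun e => Qv_bounds P hP _)
      (fun e he => Qv_step P s e (count_lt P hs hw e he)) f hf hf0
    refine le_trans (le_of_eq ?_) hcmp
    refine Ex_congr (fun _ _ => rfl) (fun A _ => ?_)
    unfold Fv
    refine Ex_congr (fun e _ => ?_) (fun B _ => rfl)
    show Qv P (if e ∈ eIn (Dm P s w) ∧ tch (reach A (Dm P s w) s.C) e then s.c e + 1 else s.c e) = _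
    by_cases hc : e ∈ eIn (Dm P s w) ∧ tch (reach A (Dm P s w) s.C) e
    · rw [if_pos hc, if_pos hc]
    · rw [if_neg hc, if_neg hc]
  · rw [Tm_stop P _ s h]

theorem Fv_ge (P : Par d) (hP : P.OK) (L : Finset (V d)) (f : Finset (V d) → ℝ)
    (hf : ∀ S T, S ⊆ T → f S ≤ f T) (s : St d) : f s.C ≤ Fv P L f s := by
  unfold Fv
  rw [← Ex_const (eIn L) (fun e => Qv P (s.c e)) (f s.C)]
  exact Ex_mono (fun e _ => Qv_bounds P hP _) (fun A _ => hf _ _ (subset_reach A L s.C))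

end Ein99.GMA
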