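import Pool.Agent.LibGM77.C_Reach

/-!
TASK D_Geo. Geometry of one move: steering of the centres of the cubes.

Let `N = n + m + 1`, `b = s.sd w.1 ∈ Bx N (N • w.1)`, `z = w.1 + st w.2`, and
`NewC m n b w.2.1 (stg P s w) b'`. Coordinate `i = w.2.1`: `b' i = b i ± N` and
`z i = w.1 i ± 1`, so the offset `b' i - N z i = b i - N w.1 i` is unchanged. Coordinate `j ≠ i`:
`z j = w.1 j`; if the offset `o = b j - N w.1 j` is negative the sign is `+` and the new offset is in
`[o, o + n]`, so in `[-N, n]`; if `o ≥ 0` the sign is `-` and the new offset is in `[o - n, o]`.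
`next_sd`: for `z' ∈ s.occ` use the hypotheses (`z' ≠ z` since `z ∉ s.occ`, so `Function.update` does
not matter) and `subset_reach`; for `z' = z` in the successful case, `h.choose_spec` and `sd_new`.
`Dm_subset`: `n + 2 m + 1 ≤ 2 N`. `Dm_subset'`: `Bx (3N) (N•w.1) ⊆ Bx (4N) (N•z)`.
-/

namespace Ein99.GMA

variable {d : ℕ}

theorem sd_new (P : Par d) (s : St d) (w : V d × Dir d)
    (h : s.sd w.1 ∈ Bx P.N ((P.N : ℤ) • w.1)) (b' : V d)
    (hb : NewC P.m P.n (s.sd w.1) w.2.1 (stg P s w) b') :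
    b' ∈ Bx P.N ((P.N : ℤ) • (w.1 + st w.2)) := by
  rw [mem_Bx] at h ⊢
  intro j
  have hj := h j
  obtain ⟨h1, h2⟩ := hb
  have hN : (P.N : ℤ) = P.n + P.m + 1 := by simp [Par.N]
  simp only [Pi.smul_apply, Pi.add_apply, smul_eq_mul] at hj ⊢
  by_cases hji : j = w.2.1
  · subst hji
    have hst : st w.2 w.2.1 = sg w.2.2 := by
      simp [st, sg]
    have hg : stg P s w w.2.1 = w.2.2 := by simp [stg]
    rw [hg, ← hN] at h1
    rw [hst]
    have hsq : sg w.2.2 * sg w.2.2 = 1 := by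
      cases w.2.2 <;> simp [sg]
    have key : b' w.2.1 = s.sd w.1 w.2.1 + sg w.2.2 * P.N := by
      have : sg w.2.2 * (sg w.2.2 * (b' w.2.1 - s.sd w.1 w.2.1)) = sg w.2.2 * P.N := by rw [h1]
      rw [← mul_assoc, hsq, one_mul] at this
      linarith
    rw [key]
    have : s.sd w.1 w.2.1 + sg w.2.2 * (P.N : ℤ) - (P.N : ℤ) * (w.1 w.2.1 + sg w.2.2) =
        s.sd w.1 w.2.1 - P.N * w.1 w.2.1 := by ring
    rw [this]
    exact hj
  · have hst : st w.2 j = 0 := by
      simp [st, hji]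
    rw [hst, add_zero]
    obtain ⟨h3, h4⟩ := h2 j hji
    have hg : stg P s w j = decide (s.sd w.1 j - (P.N : ℤ) * w.1 j < 0) := by
      simp [stg, hji]
    rw [hg] at h3 h4
    rw [abs_le] at hj ⊢
    have hm : (0 : ℤ) ≤ P.m := Int.natCast_nonneg _
    have hn : (0 : ℤ) ≤ P.n := Int.natCast_nonneg _
    by_cases ho : s.sd w.1 j - (P.N : ℤ) * w.1 j < 0
    · simp only [ho, decide_true, sg, if_true, one_mul] at h3 h4
      constructor <;> linarith
    · simp only [ho, decide_false, sg] at h3 h4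
      simp only [Bool.false_eq_true, if_false, neg_mul, one_mul] at h3 h4
      push Not at ho
      constructor <;> linarith

theorem next_sd (P : Par d) {z0 : V d} {s : St d} (hs : Inv P z0 s) {w : V d × Dir d}
    (hw : Cd P s w) (A : Finset (Ed d)) : ∀ z ∈ (nxw P s w A).occ,
      (nxw P s w A).sd z ∈ Bx P.N ((P.N : ℤ) • z) ∧
      Bx P.m ((nxw P s w A).sd z) ⊆ (nxw P s w A).C := by
  intro z hz
  have hsub : s.C ⊆ (nxw P s w A).C := subset_reach _ _ _
  by_cases hS : Suc P.m P.n (s.sd w.1) w.2.1 (stg P s w) s.C A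
  · have hocc : (nxw P s w A).occ = insert (w.1 + st w.2) s.occ := by
      simp only [nxw, if_pos hS]
    have hsd : (nxw P s w A).sd = Function.update s.sd (w.1 + st w.2) hS.choose := by
      simp only [nxw, dif_pos hS]
    rw [hocc] at hz
    rw [hsd]
    rcases Finset.mem_insert.1 hz with rfl | hz'
    · rw [Function.update_self]
      obtain ⟨h1, h2⟩ := hS.choose_spec
      exact ⟨sd_new P s w (hs.hsd _ hw.1) _ h1, h2⟩
    · have hne : z ≠ w.1 + st w.2 := by
        rintro rfl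
        exact hw.2.2.1 hz'
      rw [Function.update_of_ne hne]
      exact ⟨hs.hsd z hz', (hs.hcube z hz').trans hsub⟩
  · have hocc : (nxw P s w A).occ = s.occ := by
      simp only [nxw, if_neg hS]
    have hsd : (nxw P s w A).sd = s.sd := by
      simp only [nxw, dif_neg hS]
    rw [hocc] at hz
    rw [hsd]
    exact ⟨hs.hsd z hz, (hs.hcube z hz).trans hsub⟩

theorem Dm_subset (P : Par d) {z0 : V d} {s : St d} (hs : Inv P z0 s) {w : V d × Dir d}
    (hw : Cd P s w) : Dm P s w ⊆ Bx (3 * P.N) ((P.N : ℤ) • w.1) := by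
  have h1 := hs.hsd _ hw.1
  refine (Bx_subset (r := P.n + 2 * P.m + 1) h1).trans (Bx_mono ?_ _)
  simp only [Par.N]
  omega

theorem Dm_subset' (P : Par d) {z0 : V d} {s : St d} (hs : Inv P z0 s) {w : V d × Dir d}
    (hw : Cd P s w) : Dm P s w ⊆ Bx (4 * P.N) ((P.N : ℤ) • (w.1 + st w.2)) := by
  refine (Dm_subset P hs hw).trans ?_
  have h1 : (P.N : ℤ) • w.1 ∈ Bx P.N ((P.N : ℤ) • (w.1 + st w.2)) := by
    rw [mem_Bx]
    intro i
    have h2 := (mem_Bx.1 (add_st_mem_Bx w.1 w.2)) i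
    simp only [Pi.smul_apply, Pi.add_apply, smul_eq_mul] at h2 ⊢
    have h3 : (P.N : ℤ) * w.1 i - P.N * (w.1 i + st w.2 i) = P.N * (-(st w.2 i)) := by ring
    rw [h3, abs_mul, abs_neg]
    have h4 : |st w.2 i| ≤ 1 := by
      have : w.1 i + st w.2 i - w.1 i = st w.2 i := by ring
      rw [this] at h2
      simpa using h2
    have h5 : |(P.N : ℤ)| = P.N := abs_of_nonneg (Int.natCast_nonneg _)
    rw [h5]
    nlinarith [Int.natCast_nonneg P.N]
  refine (Bx_subset (r := 3 * P.N) h1).trans (Bx_mono ?_ _)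
  omega

theorem Dm_subset'' (P : Par d) {z0 : V d} {s : St d} (hs : Inv P z0 s) {w : V d × Dir d}
    (hw : Cd P s w) : Dm P s w ⊆ Bx (P.N * (P.R + 3)) (0 : V d) := by
  refine (Dm_subset P hs hw).trans ?_
  have h1 : (P.N : ℤ) • w.1 ∈ Bx (P.N * P.R) (0 : V d) := by
    rw [mem_Bx]
    intro i
    have h2 := (mem_Bx.1 (hs.hocc hw.1)) i
    simp only [Pi.smul_apply, Pi.zero_apply, smul_eq_mul, sub_zero] at h2 ⊢
    rw [abs_mul]
    have h5 : |(P.N : ℤ)| = P.N := abs_of_nonneg (Int.natCast_nonneg _)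
    rw [h5]
    push_cast
    exact mul_le_mul_of_nonneg_left h2 (Int.natCast_nonneg _)
  refine (Bx_subset (r := 3 * P.N) h1).trans (Bx_mono ?_ _)
  nlinarith

end Ein99.GMA
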