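import Pool.Agent.LibGM77.D_Op

/-!
TASK D_Pot. The potential of a set of coarse sites.
-/

namespace Ein99.GMA

variable {d : ℕ}

theorem step_prob (P : Par d) (hP : P.OK) {ε : ℝ} (hst : StepOK d ε P.δ P.p1 P.m P.n) {z0 : V d}
    {s : St d} (hs : Inv P z0 s) {w : V d × Dir d} (hw : Cd P s w) :
    1 - ε ≤ Ex (eIn (Dm P s w)) (av P s)
      (fun A => ind (Suc P.m P.n (s.sd w.1) w.2.1 (stg P s w) s.C A)) := by
  refine hst (s.sd w.1) w.2.1 (stg P s w) s.C (hs.hcube _ hw.1) (av P s) ?_ ?_
  · intro e
    exact ⟨(av_bounds P hP s e).1, (av_bounds P hP s e).2.2⟩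
  · intro e _ he
    have h0 : s.c e = 0 := by
      by_contra h
      exact he (hs.hc e h)
    unfold av
    rw [if_pos h0]

theorem pot_nonneg {ε : ℝ} (hε : 0 < ε) (S : Finset (V d)) (s : St d) : 0 ≤ pot ε S s := by
  unfold pot
  split_ifs
  · positivity
  · exact le_refl _

theorem pot_super (P : Par d) (hP : P.OK) {ε : ℝ} (hε : 0 < ε)
    (hst : StepOK d ε P.δ P.p1 P.m P.n) {z0 : V d} (S : Finset (V d)) {s : St d}
    (hs : Inv P z0 s) : Tm P (pot ε S) s ≤ pot ε S s := by
  classical
  by_cases ha : Act P s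
  swap
  · rw [Tm_stop P _ s ha]
  have hw := mv_spec P s ha
  have hb : ∀ e ∈ eIn (Dm P s (mv P s ha)), 0 ≤ av P s e ∧ av P s e ≤ 1 :=
    fun e _ => (av_bounds P hP s e).2
  rw [Tm_act P _ s ha]
  have hocc : ∀ A, s.occ ⊆ (nxw P s (mv P s ha) A).occ := by
    intro A
    unfold nxw
    dsimp only
    split_ifs
    · exact Finset.subset_insert _ _
    · exact Finset.Subset.refl _
  by_cases hd : Disjoint S s.occ
  swap
  · have h1 : pot ε S s = 0 := by unfold pot; rw [if_neg hd]
    rw [h1]
    have h2 : ∀ A, A ⊆ eIn (Dm P s (mv P s ha)) → pot ε S (nxw P s (mv P s ha) A) ≤ 0 := by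
      intro A _
      have : ¬ Disjoint S (nxw P s (mv P s ha) A).occ :=
        fun h3 => hd (Finset.disjoint_of_subset_right (hocc A) h3)
      unfold pot
      rw [if_neg this]
    refine (Ex_mono hb h2).trans ?_
    rw [Ex_const]
  set z := (mv P s ha).1 + st (mv P s ha).2 with hz
  have hpS : pot ε S s = ε ^ (S \ s.vac).card := by unfold pot; rw [if_pos hd]
  by_cases hzS : z ∈ S
  swap
  · -- the potential does not change
    have h2 : ∀ A, A ⊆ eIn (Dm P s (mv P s ha)) →
        pot ε S (nxw P s (mv P s ha) A) ≤ pot ε S s := by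
      intro A _
      rw [hpS]
      unfold pot
      split_ifs with h3
      · apply le_of_eq
        congr 2
        unfold nxw
        dsimp only
        split_ifs
        · rfl
        · rw [← hz]
          ext x
          simp only [Finset.mem_sdiff, Finset.mem_insert, not_or]
          constructor
          · rintro ⟨h4, _, h5⟩; exact ⟨h4, h5⟩
          · rintro ⟨h4, h5⟩
            exact ⟨h4, fun h6 => hzS (h6 ▸ h4), h5⟩
      · positivity
    refine (Ex_mono hb h2).trans ?_
    rw [Ex_const]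
  -- the main case
  have hzv : z ∉ s.vac := hw.2.2.2
  have hmem : z ∈ S \ s.vac := Finset.mem_sdiff.2 ⟨hzS, hzv⟩
  have hcard : (S \ s.vac).card = (S \ insert z s.vac).card + 1 := by
    have e1 : S \ insert z s.vac = (S \ s.vac).erase z := by
      ext x
      simp only [Finset.mem_sdiff, Finset.mem_insert, Finset.mem_erase, not_or]
      tauto
    rw [e1, Finset.card_erase_add_one hmem]
  have h2 : ∀ A, A ⊆ eIn (Dm P s (mv P s ha)) → pot ε S (nxw P s (mv P s ha) A) ≤
      ε ^ (S \ insert z s.vac).card * ind (¬ Suc P.m P.n (s.sd (mv P s ha).1) (mv P s ha).2.1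
        (stg P s (mv P s ha)) s.C A) := by
    intro A _
    by_cases hsuc : Suc P.m P.n (s.sd (mv P s ha).1) (mv P s ha).2.1
        (stg P s (mv P s ha)) s.C A
    · rw [ind_false (fun h => h hsuc), mul_zero]
      have h3 : (nxw P s (mv P s ha) A).occ = insert z s.occ := by
        unfold nxw
        dsimp only
        rw [if_pos hsuc]
      have h4 : ¬ Disjoint S (nxw P s (mv P s ha) A).occ := by
        rw [h3, Finset.disjoint_left]
        intro h5
        exact h5 hzS (Finset.mem_insert_self _ _)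
      unfold pot
      rw [if_neg h4]
    · rw [ind_true hsuc, mul_one]
      have h3 : (nxw P s (mv P s ha) A).vac = insert z s.vac := by
        unfold nxw
        dsimp only
        rw [if_neg hsuc]
      unfold pot
      split_ifs
      · rw [h3]
      · positivity
  refine (Ex_mono hb h2).trans ?_
  rw [Ex_mul]
  have h3 : Ex (eIn (Dm P s (mv P s ha))) (av P s) (fun A => ind (¬ Suc P.m P.n
      (s.sd (mv P s ha).1) (mv P s ha).2.1 (stg P s (mv P s ha)) s.C A)) ≤ ε := by
    have e1 : Ex (eIn (Dm P s (mv P s ha))) (av P s) (fun A => ind (¬ Suc P.m P.n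
        (s.sd (mv P s ha).1) (mv P s ha).2.1 (stg P s (mv P s ha)) s.C A)) =
        1 - Ex (eIn (Dm P s (mv P s ha))) (av P s) (fun A => ind (Suc P.m P.n
        (s.sd (mv P s ha).1) (mv P s ha).2.1 (stg P s (mv P s ha)) s.C A)) := by
      rw [← Ex_const (eIn (Dm P s (mv P s ha))) (av P s) 1, ← Ex_sub]
      exact Ex_congr (fun _ _ => rfl) (fun A _ => ind_not _)
    rw [e1]
    have := step_prob P hP hst hs hw
    linarith
  rw [hpS, hcard, pow_succ]
  exact mul_le_mul_of_nonneg_left h3 (by positivity)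

theorem pot_start (P : Par d) {ε : ℝ} (hε : 0 < ε) (z0 : V d) (S : Finset (V d)) :
    pot ε S (s0 P z0) ≤ ε ^ S.card := by
  unfold pot s0
  dsimp only
  split_ifs
  · rw [Finset.sdiff_empty]
  · positivity

theorem pot_end (P : Par d) {ε : ℝ} (hε : 0 < ε) {z0 : V d} (S : Finset (V d)) {s : St d}
    (hs : Inv P z0 s) : ind (S ⊆ s.vac) ≤ pot ε S s := by
  by_cases h : S ⊆ s.vac
  · rw [ind_true h]
    have h1 : Disjoint S s.occ := Finset.disjoint_of_subset_left h hs.hdis.symm
    unfold pot
    rw [if_pos h1, Finset.sdiff_eq_empty_iff_subset.2 h, Finset.card_empty, pow_zero]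
  · rw [ind_false h]
    exact pot_nonneg hε S s

end Ein99.GMA
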