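import Pool.Agent.LibGM77.D_Pot
import Pool.Agent.LibGM77.D_F

/-!
TASK D_Run. The result of the exploration.

Let `K = (Bx P.R 0).card`, `s = s0 P z0`. For stopped states `1 ≤ f s.C + ∑ S ∈ Fam, ind (S ⊆ s.vac)`
(either some `S ∈ Fam` is contained in `s.vac`, all terms are nonnegative, or `hfin`). So by
`iter_const`, `iter_stop`, `iter_add`, `iter_sum`:
`1 ≤ (Tm P)^[K] (fun s => f s.C) s + ∑ S ∈ Fam, (Tm P)^[K] (fun s => ind (S ⊆ s.vac)) s`.
First term: `≤ (Tm P)^[K] (Fv P L f) s ≤ Fv P L f s` (`iter_mono`, `Fv_ge`, `iter_le`, `Fv_super`) and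
`Fv P L f (s0 P z0)` is the right side (unfold). Other terms: `≤ (Tm P)^[K] (pot ε S) s ≤
pot ε S s ≤ ε ^ S.card`.
-/

namespace Ein99.GMA

variable {d : ℕ}

theorem run (P : Par d) (hP : P.OK) {ε : ℝ} (hε : 0 < ε) (hst : StepOK d ε P.δ P.p1 P.m P.n)
    (z0 : V d) (hz : z0 ∈ Bx P.R (0 : V d)) (L : Finset (V d))
    (hL : Bx (P.N * (P.R + 3)) (0 : V d) ⊆ L)
    (f : Finset (V d) → ℝ) (hf : ∀ S T, S ⊆ T → f S ≤ f T) (hf0 : ∀ S, 0 ≤ f S)
    (Fam : Finset (Finset (V d)))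
    (hfin : ∀ s, Inv P z0 s → ¬ Act P s → (∀ S ∈ Fam, ¬ S ⊆ s.vac) → 1 ≤ f s.C) :
    1 - ∑ S ∈ Fam, ε ^ S.card ≤
      Ex (eIn L) (fun _ => Qv P 0) (fun A => f (reach A L (Bx P.m ((P.N : ℤ) • z0)))) := by
  have hI : Inv P z0 (s0 P z0) := Inv_s0 P hP z0 hz
  have h1 : (1 : ℝ) ≤ (Tm P)^[(Bx P.R (0 : V d)).card] (fun s => f s.C) (s0 P z0)
      + ∑ S ∈ Fam, (Tm P)^[(Bx P.R (0 : V d)).card] (fun s => ind (S ⊆ s.vac)) (s0 P z0) := by
    have h2 := iter_stop P hP z0 (fun _ => (1 : ℝ))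
      (fun s => f s.C + ∑ S ∈ Fam, ind (S ⊆ s.vac)) (by
        intro s hs hact
        by_cases h : ∀ S ∈ Fam, ¬ S ⊆ s.vac
        · have h3 := hfin s hs hact h
          have h4 : (0 : ℝ) ≤ ∑ S ∈ Fam, ind (S ⊆ s.vac) :=
            Finset.sum_nonneg (fun S _ => ind_nonneg _)
          linarith
        · push Not at h
          obtain ⟨S, hS, hSv⟩ := h
          have h3 : ind (S ⊆ s.vac) ≤ ∑ S ∈ Fam, ind (S ⊆ s.vac) :=
            Finset.single_le_sum (f := fun S => ind (S ⊆ s.vac)) (fun S _ => ind_nonneg _) hS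
          rw [ind_true hSv] at h3
          have h4 := hf0 s.C
          linarith) (Bx P.R (0 : V d)).card (s0 P z0) hI
          (Finset.card_le_card Finset.sdiff_subset)
    rw [iter_const, iter_add, iter_sum] at h2
    exact h2
  have h5 : (Tm P)^[(Bx P.R (0 : V d)).card] (fun s => f s.C) (s0 P z0)
      ≤ Fv P L f (s0 P z0) :=
    (iter_mono P hP z0 (fun s => f s.C) (Fv P L f) (fun s _ => Fv_ge P hP L f hf s) _ _ hI).trans
      (iter_le P hP z0 (Fv P L f) (fun s hs => Fv_super P hP L hL f hf hf0 hs) _ _ hI)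
  have h6 : ∀ S ∈ Fam, (Tm P)^[(Bx P.R (0 : V d)).card] (fun s => ind (S ⊆ s.vac)) (s0 P z0)
      ≤ ε ^ S.card := by
    intro S _
    refine (iter_mono P hP z0 (fun s => ind (S ⊆ s.vac)) (pot ε S)
      (fun s hs => pot_end P hε S hs) _ _ hI).trans ?_
    refine (iter_le P hP z0 (pot ε S) (fun s hs => pot_super P hP hε hst S hs) _ _ hI).trans ?_
    exact pot_start P hε z0 S
  have h7 := Finset.sum_le_sum h6
  have h8 : Fv P L f (s0 P z0) =
      Ex (eIn L) (fun _ => Qv P 0) (fun A => f (reach A L (Bx P.m ((P.N : ℤ) • z0)))) := rfl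
  rw [← h8]
  linarith

end Ein99.GMA
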