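import Pool.Agent.LibGM95.CoreDefs

/-!
# Supercritical percolation: local uniqueness at some scale, definitions

Finite expectations `Ex`, explored clusters `reach`, the exploration process on the coarse lattice.
Paper proof: notes_GM_helper77.md, sections 3-6.
-/

open MeasureTheory ProbabilityTheory Filter Topology

namespace Ein99.GMA

/-! ### Expectations over finitely many independent edges -/

/-- `Ex F q f` is the expectation of `f A`, where the random subset `A` of `F` contains each `e ∈ F`
independently with probability `q e`. -/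
noncomputable def Ex {ι : Type*} [DecidableEq ι] (F : Finset ι) (q : ι → ℝ) (f : Finset ι → ℝ) : ℝ :=
  ∑ A ∈ F.powerset, ((∏ e ∈ A, q e) * ∏ e ∈ F \ A, (1 - q e)) * f A

open Classical in
/-- indicator of a proposition -/
noncomputable def ind (P : Prop) : ℝ := if P then 1 else 0

variable {d : ℕ}

/-- the configuration whose open edges are the elements of `A` -/
def om (A : Finset (Ed d)) : Om d := fun e => decide (e ∈ A)

/-- the edges with both endpoints in `D` (`eIn (Bx r z) = EB r z` by definition) -/
noncomputable def eIn (D : Finset (V d)) : Finset (Ed d) :=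
  (D ×ˢ (Finset.univ : Finset (Fin d))).filter (fun e => e.1 + Pi.single e.2 1 ∈ D)

/-- an endpoint of `e` belongs to `S` -/
def tch (S : Finset (V d)) (e : Ed d) : Prop := e.1 ∈ S ∨ e.1 + Pi.single e.2 1 ∈ S

open Classical in
/-- the set `C` together with all vertices of `D` which are joined to `C` by `A`-open paths
inside `D` -/
noncomputable def reach (A : Finset (Ed d)) (D C : Finset (V d)) : Finset (V d) :=
  C ∪ D.filter (fun y => ∃ x ∈ C, JoinIn (om A) (D : Set (V d)) x y)

/-! ### One step of the exploration -/

/-- signs -/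
def sg (b : Bool) : ℤ := if b then 1 else -1

/-- the possible centres of the new cube -/
def NewC (m n : ℕ) (b : V d) (i : Fin d) (g : Fin d → Bool) (b' : V d) : Prop :=
  sg (g i) * (b' i - b i) = n + m + 1 ∧
    ∀ j, j ≠ i → 0 ≤ sg (g j) * (b' j - b j) ∧ sg (g j) * (b' j - b j) ≤ n

/-- the step from the explored set `C`, which contains the cube around `b`, succeeds -/
def Suc (m n : ℕ) (b : V d) (i : Fin d) (g : Fin d → Bool) (C : Finset (V d))
    (A : Finset (Ed d)) : Prop :=
  ∃ b' : V d, NewC m n b i g b' ∧ Bx m b' ⊆ reach A (Bx (n + 2 * m + 1) b) C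

/-- The one step lemma: whatever has been explored, the step succeeds with probability at least
`1 - ε`. -/
def StepOK (d : ℕ) (ε δ p1 : ℝ) (m n : ℕ) : Prop :=
  ∀ (b : V d) (i : Fin d) (g : Fin d → Bool) (C : Finset (V d)), Bx m b ⊆ C →
    ∀ a : Ed d → ℝ, (∀ e, δ ≤ a e ∧ a e ≤ 1) → (∀ e ∈ EB n b, ¬ tch C e → p1 ≤ a e) →
      1 - ε ≤ Ex (EB (n + 2 * m + 1) b) a (fun A => ind (Suc m n b i g C A))

/-! ### The exploration process -/

/-- The states: explored cluster, number of used layers of each edge, occupied and vacant coarse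
sites, centres of the cubes. -/
structure St (d : ℕ) where
  C : Finset (V d)
  c : Ed d → ℕ
  occ : Finset (V d)
  vac : Finset (V d)
  sd : V d → V d

/-- The parameters of the exploration. -/
structure Par (d : ℕ) where
  m : ℕ
  n : ℕ
  R : ℕ
  p1 : ℝ
  δ : ℝ

/-- the mesh of the coarse lattice -/
def Par.N (P : Par d) : ℕ := P.n + P.m + 1

/-- admissible parameters -/
structure Par.OK (P : Par d) : Prop where
  hmn : P.m ≤ P.n
  hδ : 0 < P.δ
  hp : P.δ ≤ P.p1
  hp1 : P.p1 ≤ 1

/-- the coarse site and the direction can be used for the next move -/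
def Cd (P : Par d) (s : St d) (w : V d × Dir d) : Prop :=
  w.1 ∈ s.occ ∧ w.1 + st w.2 ∈ Bx P.R (0 : V d) ∧ w.1 + st w.2 ∉ s.occ ∧ w.1 + st w.2 ∉ s.vac

/-- some move is possible -/
def Act (P : Par d) (s : St d) : Prop := ∃ w, Cd P s w

open Classical in
/-- the next move: source site and direction -/
noncomputable def mv (P : Par d) (s : St d) (h : Act P s) : V d × Dir d := h.choose

/-- the signs which steer the next step: the direction of the move, and in the other coordinates the
sign opposite to the present offset -/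
noncomputable def stg (P : Par d) (s : St d) (w : V d × Dir d) : Fin d → Bool :=
  fun j => if j = w.2.1 then w.2.2 else decide (s.sd w.1 j - (P.N : ℤ) * w.1 j < 0)

/-- the domain of the move `w` -/
noncomputable def Dm (P : Par d) (s : St d) (w : V d × Dir d) : Finset (V d) :=
  Bx (P.n + 2 * P.m + 1) (s.sd w.1)

open Classical in
/-- the state after the move `w` when the open edges of the domain are `A` -/
noncomputable def nxw (P : Par d) (s : St d) (w : V d × Dir d) (A : Finset (Ed d)) : St d where
  C := reach A (Dm P s w) s.C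
  c := fun e => if e ∈ eIn (Dm P s w) ∧ tch (reach A (Dm P s w) s.C) e then s.c e + 1 else s.c e
  occ := if Suc P.m P.n (s.sd w.1) w.2.1 (stg P s w) s.C A then insert (w.1 + st w.2) s.occ
    else s.occ
  vac := if Suc P.m P.n (s.sd w.1) w.2.1 (stg P s w) s.C A then s.vac
    else insert (w.1 + st w.2) s.vac
  sd := if h : Suc P.m P.n (s.sd w.1) w.2.1 (stg P s w) s.C A then
      Function.update s.sd (w.1 + st w.2) h.choose
    else s.sd

/-- the probabilities of the layer which is used by the next move -/
noncomputable def av (P : Par d) (s : St d) : Ed d → ℝ := fun e => if s.c e = 0 then P.p1 else P.δ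

/-- the number of layers -/
def Jn (d : ℕ) : ℕ := 9 ^ d

/-- the probability that an edge is open in one of the remaining layers, when `c` layers have been
used -/
noncomputable def Qv (P : Par d) (c : ℕ) : ℝ :=
  if c = 0 then 1 - (1 - P.p1) * (1 - P.δ) ^ (Jn d) else 1 - (1 - P.δ) ^ (Jn d + 1 - c)

open Classical in
/-- the one move operator -/
noncomputable def Tm (P : Par d) (φ : St d → ℝ) (s : St d) : ℝ :=
  if h : Act P s then
    Ex (eIn (Dm P s (mv P s h))) (av P s) (fun A => φ (nxw P s (mv P s h) A))
  else φ s

/-- the invariants of the exploration -/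
structure Inv (P : Par d) (z0 : V d) (s : St d) : Prop where
  hz0 : z0 ∈ s.occ
  hocc : s.occ ⊆ Bx P.R (0 : V d)
  hvac : s.vac ⊆ Bx P.R (0 : V d)
  hdis : Disjoint s.occ s.vac
  hsd : ∀ z ∈ s.occ, s.sd z ∈ Bx P.N ((P.N : ℤ) • z)
  hcube : ∀ z ∈ s.occ, Bx P.m (s.sd z) ⊆ s.C
  hC : s.C ⊆ Bx (P.N * (P.R + 3)) (0 : V d)
  hc : ∀ e, s.c e ≠ 0 → tch s.C e
  hcount : ∀ e, s.c e ≤
    ((s.occ ∪ s.vac).filter (fun z => e.1 ∈ Bx (4 * P.N) ((P.N : ℤ) • z))).card

/-- the initial state -/
noncomputable def s0 (P : Par d) (z0 : V d) : St d where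
  C := Bx P.m ((P.N : ℤ) • z0)
  c := fun _ => 0
  occ := {z0}
  vac := ∅
  sd := fun z => (P.N : ℤ) • z

/-- the probability that the cluster of the explored set has the property `f`, in the remaining
layers -/
noncomputable def Fv (P : Par d) (L : Finset (V d)) (f : Finset (V d) → ℝ) (s : St d) : ℝ :=
  Ex (eIn L) (fun e => Qv P (s.c e)) (fun A => f (reach A L s.C))

open Classical in
/-- the potential which controls the vacant sites -/
noncomputable def pot (ε : ℝ) (S : Finset (V d)) (s : St d) : ℝ :=
  if Disjoint S s.occ then ε ^ (S \ s.vac).card else 0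

/-! ### The coarse lattice -/

/-- injective `*`-paths with `k + 1` vertices starting at `u` inside `B` -/
def StarP (B : Finset (V d)) (k : ℕ) (u : V d) (f : Fin (k + 1) → V d) : Prop :=
  f 0 = u ∧ Function.Injective f ∧ (∀ i, f i ∈ B) ∧
    ∀ i : Fin k, f i.succ ∈ Bx 1 (f i.castSucc)

/-- the property of the final cluster -/
noncomputable def fH (N k ρ : ℕ) (M : Finset (V d)) : ℝ := ind (Hits N k ρ (M : Set (V d)))

end Ein99.GMA
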