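import Pool.Agent.LibGM77.Defs
import Pool.Agent.LibEin99.H_Star
import Pool.Agent.LibEin99.A_Box

/-!
TASK E_Fam. The family of bad patterns.

`Fam` is the union of the images `Finset.univ.image f` of
(1) all `f` with `StarP (Bx R 0) k u f`, `u ∈ Bx R 0`: at most `(2R+1)^d (3^d)^k` sets (`card_Bx`,
`star_count`), each with `k + 1` elements (injectivity);
(2) for `1 ≤ j ≤ 2R`, all `f` with `StarP (Bx R 0) j (z0 + j e) f`: at most `(3^d)^j` sets with `j + 1`
elements. For `j > 2R` there are none: `f 0 = z0 + j e ∈ Bx R 0` and `z0 ∈ Bx R 0`.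
Sum: `(2R+1)^d (3^d ε)^k ε + ∑_{j≥1} (3^d ε)^j ε ≤ (2R+1)^d (1/2)^k ε + ε`.
The sets of such `f` are finite by `star_count`; use `Set.Finite.toFinset`.
-/

namespace Ein99.GMA

variable {d : ℕ}

private theorem fam_sum_biUnion {α β : Type*} [DecidableEq β] (s : Finset α)
    (t : α → Finset β) (g : β → ℝ) (hg : ∀ b, 0 ≤ g b) :
    ∑ b ∈ s.biUnion t, g b ≤ ∑ a ∈ s, ∑ b ∈ t a, g b := by
  classical
  induction s using Finset.induction_on with
  | empty => simp
  | insert a s ha ih =>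
    rw [Finset.biUnion_insert, Finset.sum_insert ha]
    have h1 := Finset.sum_union_inter (s₁ := t a) (s₂ := s.biUnion t) (f := g)
    have h2 : 0 ≤ ∑ b ∈ t a ∩ s.biUnion t, g b := Finset.sum_nonneg fun b _ => hg b
    linarith

private theorem fam_geom (n : ℕ) : ∑ j ∈ Finset.Icc 1 n, (1 / 2 : ℝ) ^ j = 1 - (1 / 2) ^ n := by
  induction n with
  | zero => simp
  | succ n ih =>
    rw [Finset.sum_Icc_succ_top (by omega), ih, pow_succ]
    ring

open Classical in
/-- the vertex sets of the injective `*`-paths with `k + 1` vertices starting at `u` -/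
private noncomputable def famS (k : ℕ) (u : V d) : Finset (Finset (V d)) :=
  ((star_count k u).1.toFinset.filter Function.Injective).image (fun f => Finset.univ.image f)

private theorem famS_card (k : ℕ) (u : V d) : ((famS k u).card : ℝ) ≤ (3 ^ d) ^ k := by
  classical
  have h1 : (famS k u).card ≤ (3 ^ d) ^ k := by
    refine (Finset.card_image_le).trans ((Finset.card_filter_le _ _).trans ?_)
    rw [← Set.ncard_eq_toFinset_card _ (star_count k u).1]
    exact (star_count k u).2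
  exact_mod_cast h1

private theorem famS_mem_card {k : ℕ} {u : V d} {S : Finset (V d)} (hS : S ∈ famS k u) :
    S.card = k + 1 := by
  classical
  unfold famS at hS
  rw [Finset.mem_image] at hS
  obtain ⟨f, hf, rfl⟩ := hS
  rw [Finset.mem_filter] at hf
  rw [Finset.card_image_of_injective _ hf.2, Finset.card_univ, Fintype.card_fin]

private theorem famS_sum (k : ℕ) (u : V d) {ε : ℝ} (hε : 0 < ε) (hε2 : 3 ^ d * ε ≤ 1 / 2) :
    ∑ S ∈ famS k u, ε ^ S.card ≤ (1 / 2 : ℝ) ^ k * ε := by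
  have h1 : ∑ S ∈ famS k u, ε ^ S.card = (famS k u).card * ε ^ (k + 1) := by
    rw [Finset.sum_congr rfl (fun S hS => by rw [famS_mem_card hS]), Finset.sum_const,
      nsmul_eq_mul]
  rw [h1]
  have h2 : ((famS k u).card : ℝ) * ε ^ (k + 1) ≤ (3 ^ d) ^ k * ε ^ (k + 1) :=
    mul_le_mul_of_nonneg_right (famS_card k u) (by positivity)
  refine h2.trans ?_
  have h3 : ((3 : ℝ) ^ d) ^ k * ε ^ (k + 1) = (3 ^ d * ε) ^ k * ε := by
    rw [mul_pow, pow_succ]
    ring
  rw [h3]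
  exact mul_le_mul_of_nonneg_right (pow_le_pow_left₀ (by positivity) hε2 k) hε.le

private theorem famS_mem {B : Finset (V d)} {k : ℕ} {u : V d} {f : Fin (k + 1) → V d}
    (hf : StarP B k u f) : Finset.univ.image f ∈ famS k u := by
  classical
  unfold famS
  rw [Finset.mem_image]
  refine ⟨f, ?_, ?_⟩
  · rw [Finset.mem_filter, Set.Finite.mem_toFinset]
    exact ⟨⟨hf.1, hf.2.2.2⟩, hf.2.1⟩
  · congr 1

theorem exists_fam (R k : ℕ) (z0 : V d) (hz : z0 ∈ Bx R (0 : V d)) (i0 : Fin d) {ε : ℝ}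
    (hε : 0 < ε) (hε2 : 3 ^ d * ε ≤ 1 / 2) : ∃ Fam : Finset (Finset (V d)),
      (∀ u ∈ Bx R (0 : V d), ∀ f, StarP (Bx R (0 : V d)) k u f → Finset.univ.image f ∈ Fam) ∧
      (∀ j : ℕ, 1 ≤ j → ∀ f, StarP (Bx R (0 : V d)) j (z0 + Pi.single i0 (j : ℤ)) f →
        Finset.univ.image f ∈ Fam) ∧
      ∑ S ∈ Fam, ε ^ S.card ≤ ((2 * R + 1) ^ d * (1 / 2 : ℝ) ^ k + 1) * ε := by
  classical
  refine ⟨(Bx R (0 : V d)).biUnion (fun u => famS k u) ∪
    (Finset.Icc 1 (2 * R)).biUnion (fun j => famS j (z0 + Pi.single i0 (j : ℤ))), ?_, ?_, ?_⟩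
  · intro u hu f hf
    exact Finset.mem_union_left _ (Finset.mem_biUnion.mpr ⟨u, hu, famS_mem hf⟩)
  · intro j hj f hf
    refine Finset.mem_union_right _ (Finset.mem_biUnion.mpr ⟨j, ?_, famS_mem hf⟩)
    rw [Finset.mem_Icc]
    refine ⟨hj, ?_⟩
    have h1 := (mem_Bx.mp (hf.2.2.1 0)) i0
    rw [hf.1] at h1
    have h2 := (mem_Bx.mp hz) i0
    simp only [Pi.add_apply, Pi.single_eq_same, Pi.zero_apply, sub_zero] at h1 h2
    rw [abs_le] at h1 h2
    have h3 : (j : ℤ) ≤ 2 * R := by linarith [h1.2, h2.1]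
    exact_mod_cast h3
  · have hg : ∀ S : Finset (V d), 0 ≤ ε ^ S.card := fun S => by positivity
    have h1 := Finset.sum_union_inter (s₁ := (Bx R (0 : V d)).biUnion (fun u => famS k u))
      (s₂ := (Finset.Icc 1 (2 * R)).biUnion (fun j => famS j (z0 + Pi.single i0 (j : ℤ))))
      (f := fun S : Finset (V d) => ε ^ S.card)
    have h2 : 0 ≤ ∑ S ∈ (Bx R (0 : V d)).biUnion (fun u => famS k u) ∩
      (Finset.Icc 1 (2 * R)).biUnion (fun j => famS j (z0 + Pi.single i0 (j : ℤ))),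
        ε ^ S.card := Finset.sum_nonneg fun S _ => hg S
    have h3 : ∑ S ∈ (Bx R (0 : V d)).biUnion (fun u => famS k u), ε ^ S.card ≤
        (2 * R + 1) ^ d * ((1 / 2 : ℝ) ^ k * ε) := by
      refine (fam_sum_biUnion _ _ _ hg).trans ?_
      refine (Finset.sum_le_card_nsmul _ _ _ (fun u _ => famS_sum k u hε hε2)).trans ?_
      rw [card_Bx, nsmul_eq_mul]
      push_cast
      exact le_rfl
    have h4 : ∑ S ∈ (Finset.Icc 1 (2 * R)).biUnion
        (fun j => famS j (z0 + Pi.single i0 (j : ℤ))), ε ^ S.card ≤ ε := by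
      refine (fam_sum_biUnion _ _ _ hg).trans ?_
      refine (Finset.sum_le_sum (fun j _ => famS_sum j _ hε hε2)).trans ?_
      rw [← Finset.sum_mul, fam_geom]
      have h5 : (0 : ℝ) ≤ (1 / 2) ^ (2 * R) := by positivity
      nlinarith
    have h6 : ((2 * R + 1) ^ d * (1 / 2 : ℝ) ^ k + 1) * ε =
        (2 * R + 1) ^ d * ((1 / 2 : ℝ) ^ k * ε) + ε := by ring
    rw [h6]
    linarith

end Ein99.GMA
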