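import Pool.Agent.LibGM77.D_Inv
import Pool.Agent.LibEin99.H_Star
import Pool.Agent.LibEin99.H_Free
import Pool.Agent.LibEin99.H_Link

/-!
TASK E_Hits. A stopped exploration without bad patterns hits all long coarse paths.

Let `B = (s.vac : Set _)`, `R = ρ + k + 1`, `w0 = fun _ => R + k + 1`.
`Small B k w0`: if `u ∈ B`, `SJoin B u v`, `v ∉ Bx k u` then `star_path` gives a pattern excluded by
`h1`; `w0 ∉ Bx k u` since `|u i| ≤ R` and `d ≥ 1`.
`free_z0`: `z0 ∉ B` (`hdis`, `hz0`). Let `u ∈ B`, `D = cl B u`; `D ⊆ Bx k u`, `D ⊆ B`. Suppose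
`¬ NJoin Dᶜ z0 w0`. If all `z0 + j e`, `j ≥ 0`, are outside `D`, then `z0` is joined in `Dᶜ` to a vertex
outside `Bx k u` (large `j`), and `outside_connected` joins it to `w0`: contradiction. So some
`x₊ = z0 + j e ∈ D` with `j ≥ 1` (`z0 ∉ B ⊇ D`), and similarly `x₋ = z0 - j' e ∈ D`, `j' ≥ 1`. Then
`SJoin B x₊ x₋` (symmetry, transitivity) and `x₋ ∉ Bx j x₊`, so `star_path` gives an injective
`*`-path with `j + 1` vertices starting at `x₊` inside `B`, excluded by `h2`.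
`hits`: given `S, z, z'`, `exists_free` gives a free `u ∈ S ⊆ Bx ρ 0`, `free_link` (for `z0` and `u`)
gives `NJoin (Bᶜ ∩ Bx (ρ+k+1) 0) z0 u`; by induction along this path all its vertices are in
`s.occ`: if `a ∈ s.occ` and the next vertex `a + st δ ∈ Bx R 0` is not in `s.vac` and not in `s.occ` then
`Act P s`. So `u ∈ s.occ`; take `v = s.sd u` (`hsd`, `hcube`, `self_mem_Bx`).
-/

namespace Ein99.GMA

variable {d : ℕ}

theorem EH_cl_sub (B : Set (V d)) (u : V d) (hu : u ∈ B) : cl B u ⊆ B := by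
  intro v hv
  have h : SJoin B u v := hv
  unfold SJoin at h
  induction h with
  | refl => exact hu
  | tail _ hbc _ => exact hbc.2.1

theorem EH_ray (hd : 2 ≤ d) (D : Set (V d)) (k : ℕ) (u w0 z0 : V d) (δ : Dir d)
    (hD : D ⊆ (Bx k u : Set (V d))) (hw : w0 ∉ Bx k u)
    (h : ∀ j : ℕ, z0 + (j : ℤ) • st δ ∉ D) : NJoin Dᶜ z0 w0 := by
  have h1 : ∀ j : ℕ, NJoin Dᶜ z0 (z0 + (j : ℤ) • st δ) := by
    intro j
    induction j with
    | zero =>
      have h0 : z0 + ((0 : ℕ) : ℤ) • st δ = z0 := by simp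
      rw [h0]
      exact Relation.ReflTransGen.refl
    | succ j ih =>
      refine Relation.ReflTransGen.tail ih ⟨h j, h (j + 1), δ, ?_⟩
      push_cast
      rw [add_smul, one_smul, add_assoc]
  have h2 : ∃ j : ℕ, z0 + (j : ℤ) • st δ ∉ Bx k u := by
    refine ⟨(z0 δ.1 - u δ.1).natAbs + k + 1, ?_⟩
    intro hc
    rw [mem_Bx] at hc
    have h3 := hc δ.1
    have h4 : st δ δ.1 = 1 ∨ st δ δ.1 = -1 := by
      unfold st
      rw [Pi.single_eq_same]
      split <;> simp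
    simp only [Pi.add_apply, Pi.smul_apply, smul_eq_mul] at h3
    have h5 := abs_le.1 h3
    push_cast at h5
    rcases h4 with h4 | h4 <;> rw [h4] at h5
    · have h6 := neg_abs_le (z0 δ.1 - u δ.1)
      linarith [h5.1, h5.2]
    · have h6 := le_abs_self (z0 δ.1 - u δ.1)
      linarith [h5.1, h5.2]
  obtain ⟨j, hj⟩ := h2
  refine (h1 j).trans (NJoin_mono ?_ (outside_connected hd k u _ _ hj hw))
  intro x hx hxD
  exact hx (hD hxD)

theorem free_z0 (hd : 2 ≤ d) (P : Par d) (k ρ : ℕ) (hR : P.R = ρ + k + 1) (z0 : V d) (i0 : Fin d)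
    {s : St d} (hs : Inv P z0 s)
    (h1 : ∀ u ∈ Bx P.R (0 : V d), ∀ f, ¬ StarP s.vac k u f)
    (h2 : ∀ j : ℕ, 1 ≤ j → ∀ f, ¬ StarP s.vac j (z0 + Pi.single i0 (j : ℤ)) f) :
    Small (s.vac : Set (V d)) k (fun _ => (P.R : ℤ) + k + 1) ∧
    Free (s.vac : Set (V d)) (fun _ => (P.R : ℤ) + k + 1) z0 := by
  have hsmall : Small (s.vac : Set (V d)) k (fun _ => (P.R : ℤ) + k + 1) := by
    constructor
    · intro u hu v huv
      by_contra hv
      obtain ⟨f, hf0, hf1, hf2, hf3⟩ := star_path _ k u v hu huv hv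
      exact h1 u (hs.hvac hu) f ⟨hf0, hf1, hf2, hf3⟩
    · intro u hu hc
      have hu' := hs.hvac hu
      rw [mem_Bx] at hc hu'
      have h3 := abs_le.1 (hc i0)
      have h4 := abs_le.1 (hu' i0)
      simp only [Pi.zero_apply, sub_zero] at h4
      linarith [h3.2, h4.2]
  refine ⟨hsmall, ?_, ?_⟩
  · intro hc
    exact (Finset.disjoint_left.1 hs.hdis hs.hz0) hc
  · intro u hu
    by_contra hcon
    have hz0B : z0 ∉ (s.vac : Set (V d)) := fun hc =>
      (Finset.disjoint_left.1 hs.hdis hs.hz0) hc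
    have hsub : cl (s.vac : Set (V d)) u ⊆ (Bx k u : Set (V d)) := fun v hv =>
      hsmall.small u hu v hv
    have hray : ∀ δ : Dir d, ∃ j : ℕ, z0 + (j : ℤ) • st δ ∈ cl (s.vac : Set (V d)) u := by
      intro δ
      by_contra hc
      push Not at hc
      exact hcon (EH_ray hd _ k u _ z0 δ hsub (hsmall.far u hu) hc)
    have hclB := EH_cl_sub (s.vac : Set (V d)) u hu
    have hpos : ∀ (δ : Dir d) (j : ℕ), z0 + (j : ℤ) • st δ ∈ cl (s.vac : Set (V d)) u → 1 ≤ j := by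
      intro δ j hj
      by_contra hc
      have : j = 0 := by omega
      subst this
      apply hz0B
      have := hclB hj
      simpa using this
    obtain ⟨j, hj⟩ := hray (i0, true)
    obtain ⟨j', hj'⟩ := hray (i0, false)
    have hj1 := hpos _ j hj
    have hj1' := hpos _ j' hj'
    have hst : (j : ℤ) • st (i0, true) = (Pi.single i0 (j : ℤ) : V d) := by
      funext i
      simp only [st, Pi.smul_apply, smul_eq_mul, if_true]
      by_cases hi : i = i0
      · subst hi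
        simp
      · simp [Pi.single_eq_of_ne hi]
    have hJ : SJoin (s.vac : Set (V d)) (z0 + (j : ℤ) • st (i0, true))
        (z0 + (j' : ℤ) • st (i0, false)) :=
      (SJoin_symm hj).trans hj'
    have hfar : z0 + (j' : ℤ) • st (i0, false) ∉ Bx j (z0 + (j : ℤ) • st (i0, true)) := by
      intro hc
      rw [mem_Bx] at hc
      have h3 := abs_le.1 (hc i0)
      simp only [Pi.add_apply, Pi.smul_apply, smul_eq_mul, st, Pi.single_eq_same, if_true,
        Bool.false_eq_true, if_false] at h3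
      have h4 : (1 : ℤ) ≤ j' := by exact_mod_cast hj1'
      linarith [h3.1]
    obtain ⟨f, hf0, hf1, hf2, hf3⟩ := star_path _ j _ _ (hclB hj) hJ hfar
    rw [hst] at hf0
    exact h2 j hj1 f ⟨hf0, hf1, hf2, hf3⟩

theorem hits (hd : 2 ≤ d) (P : Par d) (k ρ : ℕ) (hR : P.R = ρ + k + 1) (z0 : V d) (i0 : Fin d)
    (hz : z0 ∈ Bx ρ (0 : V d)) {s : St d} (hs : Inv P z0 s) (hact : ¬ Act P s)
    (h1 : ∀ u ∈ Bx P.R (0 : V d), ∀ f, ¬ StarP s.vac k u f)
    (h2 : ∀ j : ℕ, 1 ≤ j → ∀ f, ¬ StarP s.vac j (z0 + Pi.single i0 (j : ℤ)) f) :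
    Hits P.N k ρ (s.C : Set (V d)) := by
  obtain ⟨hsmall, hfree⟩ := free_z0 hd P k ρ hR z0 i0 hs h1 h2
  intro S z z' hS hzz hzS hfar
  obtain ⟨u, huS, huF⟩ := exists_free hd _ k _ hsmall S z z' hzz hzS hfar
  have hlink := free_link _ k _ hsmall ρ z0 u hz (hS huS) hfree huF
  rw [← hR] at hlink
  have key : ∀ a, NJoin ((s.vac : Set (V d))ᶜ ∩ (Bx P.R (0 : V d) : Set (V d))) z0 a →
      a ∈ s.occ := by
    intro a ha
    unfold NJoin at ha
    induction ha with
    | refl => exact hs.hz0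
    | @tail a b _ hab ih =>
      obtain ⟨_, hb, δ, rfl⟩ := hab
      by_contra hcon
      exact hact ⟨(a, δ), ih, hb.2, hcon, hb.1⟩
  have hocc : u ∈ s.occ := key u hlink
  exact ⟨u, huS, s.sd u, hs.hcube u hocc (self_mem_Bx _ _), hs.hsd u hocc⟩

end Ein99.GMA
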