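import Pool.Agent.LibGM77.D_Run
import Pool.Agent.LibGM77.E_Hits
import Pool.Agent.LibGM77.E_Fam

/-!
TASK E_Run. The cluster of a cube hits all long coarse paths with high probability.

`run` with `f = fH N k ρ` (monotone: `Hits_mono`), the family of `exists_fam` and `hits`: if no `S ∈ Fam`
is contained in `s.vac` then there is no `f` with `StarP s.vac k u f` (such an `f` satisfies
`StarP (Bx R 0) k u f` as `s.vac ⊆ Bx R 0`, and its image is a member of `Fam` contained in `s.vac`).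
`i0 = ⟨0, _⟩`.
-/

namespace Ein99.GMA

variable {d : ℕ}

theorem Hits_mono {N k ρ : ℕ} {M M' : Set (V d)} (h : M ⊆ M') (hM : Hits N k ρ M) :
    Hits N k ρ M' := by
  intro S z z' hS hj hz hz'
  obtain ⟨u, hu, v, hv, hvu⟩ := hM S z z' hS hj hz hz'
  exact ⟨u, hu, v, h hv, hvu⟩

theorem run_hits (hd : 2 ≤ d) (P : Par d) (hP : P.OK) {ε : ℝ} (hε : 0 < ε)
    (hε2 : 3 ^ d * ε ≤ 1 / 2) (hst : StepOK d ε P.δ P.p1 P.m P.n) (k ρ : ℕ)
    (hR : P.R = ρ + k + 1) (z0 : V d) (hz : z0 ∈ Bx ρ (0 : V d)) (L : Finset (V d))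
    (hL : Bx (P.N * (P.R + 3)) (0 : V d) ⊆ L) :
    1 - ((2 * P.R + 1) ^ d * (1 / 2 : ℝ) ^ k + 1) * ε ≤
      Ex (eIn L) (fun _ => Qv P 0)
        (fun A => fH P.N k ρ (reach A L (Bx P.m ((P.N : ℤ) • z0)))) := by
  have hzR : z0 ∈ Bx P.R (0 : V d) := Bx_mono (by omega) 0 hz
  obtain ⟨Fam, hF1, hF2, hF3⟩ := exists_fam P.R k z0 hzR ⟨0, by omega⟩ hε hε2
  have hrun := run P hP hε hst z0 hzR L hL (fH P.N k ρ)
    (by
      intro S T hST
      unfold fH
      exact ind_mono (Hits_mono (by exact_mod_cast hST)))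
    (fun S => ind_nonneg _) Fam
    (by
      intro s hs hact hno
      unfold fH
      rw [ind_true]
      have hsub : ∀ (j : ℕ) (u : V d) (f : Fin (j + 1) → V d), StarP s.vac j u f →
          StarP (Bx P.R (0 : V d)) j u f ∧ Finset.univ.image f ⊆ s.vac := by
        intro j u f hf
        obtain ⟨h1, h2, h3, h4⟩ := hf
        refine ⟨⟨h1, h2, fun i => hs.hvac (h3 i), h4⟩, ?_⟩
        intro x hx
        rw [Finset.mem_image] at hx
        obtain ⟨i, _, rfl⟩ := hx
        exact h3 i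
      refine hits hd P k ρ hR z0 ⟨0, by omega⟩ hz hs hact ?_ ?_
      · intro u hu f hf
        obtain ⟨h1, h2⟩ := hsub k u f hf
        exact hno _ (hF1 u hu f h1) h2
      · intro j hj f hf
        obtain ⟨h1, h2⟩ := hsub j _ f hf
        exact hno _ (hF2 j hj f h1) h2)
  linarith

end Ein99.GMA
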