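import Pool.Agent.LibGM77.P_Merge
import Pool.Agent.LibEin99.C_Loc

/-!
TASK P_Bridge. Probabilities of local events under product measures are finite expectations.

`bridge`: for a finite set `F` and `A ⊆ F` the cylinder `{ω | ∀ e ∈ F, ω e = decide (e ∈ A)}` has
probability `∏ e ∈ A, a e * ∏ e ∈ F \ A, (1 - a e)` (`Measure.infinitePi_pi`-type lemma for a finite
cylinder, `bernoulliMeasure` of `{true}` and `{false}`; see how C_Loc handles `Pr`); `{ω | Φ ω}` is the
disjoint union of the cylinders of the sets `A ⊆ F` with `Φ (om A)`, because `Φ` is local.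
`Pr_mono`: `bridge` twice and `Ex_mono_q`.
-/

open MeasureTheory ProbabilityTheory

namespace Ein99.GMA

variable {d : ℕ}

/-- the cylinder of the configurations which agree with `om A` on `F` -/
private def Cyl (F A : Finset (Ed d)) : Set (Om d) :=
  Set.pi (F : Set (Ed d)) (fun e => {decide (e ∈ A)})

private theorem mem_Cyl {F A : Finset (Ed d)} {ω : Om d} :
    ω ∈ Cyl F A ↔ ∀ e ∈ F, ω e = decide (e ∈ A) := by
  unfold Cyl
  simp only [Set.mem_pi, Finset.mem_coe, Set.mem_singleton_iff]

private theorem Cyl_measurable (F A : Finset (Ed d)) : MeasurableSet (Cyl F A) :=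
  MeasurableSet.pi (Finset.countable_toSet F) (fun _ _ => MeasurableSet.of_discrete)

private theorem Cyl_prob (a : Ed d → unitInterval) {F A : Finset (Ed d)} (hA : A ⊆ F) :
    (Measure.infinitePi (fun e : Ed d => bernoulliMeasure true false (a e))).real (Cyl F A)
      = (∏ e ∈ A, (a e : ℝ)) * ∏ e ∈ F \ A, (1 - (a e : ℝ)) := by
  unfold Cyl
  rw [measureReal_def, Measure.infinitePi_pi _ (fun _ _ => MeasurableSet.of_discrete),
    ENNReal.toReal_prod]
  have h1 : ∀ e ∈ F, ((bernoulliMeasure true false (a e)) {decide (e ∈ A)}).toReal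
      = if e ∈ A then (a e : ℝ) else 1 - (a e : ℝ) := by
    intro e _
    rw [← measureReal_def]
    by_cases he : e ∈ A
    · rw [if_pos he, decide_eq_true he,
        bernoulliMeasure_real_apply_of_mem_of_notMem (a e) MeasurableSet.of_discrete (by simp)
          (by simp)]
    · rw [if_neg he, decide_eq_false he,
        bernoulliMeasure_real_apply_of_notMem_of_mem (a e) MeasurableSet.of_discrete (by simp)
          (by simp)]
  rw [Finset.prod_congr rfl h1, ← Finset.prod_sdiff hA, mul_comm]
  congr 1
  · apply Finset.prod_congr rfl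
    intro e he
    rw [if_pos he]
  · apply Finset.prod_congr rfl
    intro e he
    rw [if_neg (Finset.mem_sdiff.1 he).2]

theorem bridge (a : Ed d → unitInterval) (F : Finset (Ed d)) (Φ : Om d → Prop)
    (hΦ : Loc (F : Set (Ed d)) Φ) :
    (Measure.infinitePi (fun e : Ed d => bernoulliMeasure true false (a e))).real {ω : Om d | Φ ω}
      = Ex F (fun e => (a e : ℝ)) (fun A => ind (Φ (om A))) := by
  classical
  have hset : {ω : Om d | Φ ω} = ⋃ A ∈ F.powerset.filter (fun A => Φ (om A)), Cyl F A := by
    ext ω
    simp only [Set.mem_ofPred_eq, Set.mem_iUnion, Finset.mem_filter, Finset.mem_powerset,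
      exists_prop, mem_Cyl]
    constructor
    · intro hω
      refine ⟨F.filter (fun e => ω e = true), ⟨Finset.filter_subset _ _, ?_⟩, ?_⟩
      · have : Φ ω = Φ (om (F.filter (fun e => ω e = true))) := by
          apply hΦ
          intro e he
          have he' : e ∈ F := he
          simp [om, he']
        rw [← this]
        exact hω
      · intro e he
        simp [he]
    · rintro ⟨A, ⟨hA, hΦA⟩, hω⟩
      have : Φ ω = Φ (om A) := by
        apply hΦ
        intro e he
        exact hω e he
      rw [this]
      exact hΦA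
  rw [hset, measureReal_biUnion_finset]
  · unfold Ex
    rw [Finset.sum_filter]
    apply Finset.sum_congr rfl
    intro A hA
    have hA' : A ⊆ F := Finset.mem_powerset.1 hA
    show _ = ((∏ e ∈ A, (a e : ℝ)) * ∏ e ∈ F \ A, (1 - (a e : ℝ))) * ind (Φ (om A))
    by_cases h : Φ (om A)
    · rw [if_pos h, Cyl_prob a hA', ind_true h, mul_one]
    · rw [if_neg h, ind_false h, mul_zero]
  · intro A hA B hB hAB
    have hA' : A ⊆ F := Finset.mem_powerset.1 (Finset.mem_filter.1 (Finset.mem_coe.1 hA)).1
    have hB' : B ⊆ F := Finset.mem_powerset.1 (Finset.mem_filter.1 (Finset.mem_coe.1 hB)).1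
    show Disjoint (Cyl F A) (Cyl F B)
    rw [Set.disjoint_left]
    intro ω h1 h2
    apply hAB
    rw [mem_Cyl] at h1 h2
    ext e
    by_cases he : e ∈ F
    · have h3 := (h1 e he).symm.trans (h2 e he)
      have h4 : (e ∈ A) ↔ (e ∈ B) := by
        simpa using h3
      exact h4
    · exact ⟨fun h => absurd (hA' h) he, fun h => absurd (hB' h) he⟩
  · intro A _
    exact Cyl_measurable F A

theorem bridge_Pr (p : unitInterval) (F : Finset (Ed d)) (Φ : Om d → Prop)
    (hΦ : Loc (F : Set (Ed d)) Φ) :
    (Pr d p).real {ω : Om d | Φ ω} = Ex F (fun _ => (p : ℝ)) (fun A => ind (Φ (om A))) :=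
  bridge (fun _ => p) F Φ hΦ

end Ein99.GMA
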