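import Pool.Agent.LibGM77.Defs

/-!
Basic rules for the finite expectation `Ex`.
-/

namespace Ein99.GMA

variable {ι : Type*} [DecidableEq ι]

theorem Ex_empty (q : ι → ℝ) (f : Finset ι → ℝ) : Ex ∅ q f = f ∅ := by
  simp [Ex]

theorem Ex_insert {F : Finset ι} {e : ι} (he : e ∉ F) (q : ι → ℝ) (f : Finset ι → ℝ) :
    Ex (insert e F) q f = (1 - q e) * Ex F q f + q e * Ex F q (fun A => f (insert e A)) := by
  unfold Ex
  rw [Finset.sum_powerset_insert he]
  rw [Finset.mul_sum, Finset.mul_sum]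
  congr 1
  · refine Finset.sum_congr rfl fun A hA => ?_
    have hA' : A ⊆ F := Finset.mem_powerset.mp hA
    have heA : e ∉ A := fun h => he (hA' h)
    have h1 : insert e F \ A = insert e (F \ A) := by
      rw [Finset.insert_sdiff_of_notMem _ heA]
    rw [h1, Finset.prod_insert (fun h => he (Finset.mem_sdiff.mp h).1)]
    ring
  · refine Finset.sum_congr rfl fun A hA => ?_
    have hA' : A ⊆ F := Finset.mem_powerset.mp hA
    have heA : e ∉ A := fun h => he (hA' h)
    have h1 : insert e F \ insert e A = F \ A := by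
      ext x
      simp only [Finset.mem_sdiff, Finset.mem_insert, not_or]
      constructor
      · rintro ⟨hx, hx1, hx2⟩
        rcases hx with hx | hx
        · exact absurd hx hx1
        · exact ⟨hx, hx2⟩
      · rintro ⟨hx, hx2⟩
        refine ⟨Or.inr hx, ?_, hx2⟩
        rintro rfl
        exact he hx
    rw [h1, Finset.prod_insert heA]
    ring

theorem Ex_congr {F : Finset ι} {q q' : ι → ℝ} {f f' : Finset ι → ℝ} (hq : ∀ e ∈ F, q e = q' e)
    (hf : ∀ A, A ⊆ F → f A = f' A) : Ex F q f = Ex F q' f' := by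
  unfold Ex
  refine Finset.sum_congr rfl fun A hA => ?_
  have hA' : A ⊆ F := Finset.mem_powerset.mp hA
  have h1 : ∏ e ∈ A, q e = ∏ e ∈ A, q' e := Finset.prod_congr rfl (fun e he => hq e (hA' he))
  have h2 : ∏ e ∈ F \ A, (1 - q e) = ∏ e ∈ F \ A, (1 - q' e) :=
    Finset.prod_congr rfl (fun e he => by rw [hq e (Finset.mem_sdiff.mp he).1])
  rw [hf A hA', h1, h2]

theorem Ex_mono {F : Finset ι} {q : ι → ℝ} {f g : Finset ι → ℝ}
    (hq : ∀ e ∈ F, 0 ≤ q e ∧ q e ≤ 1) (h : ∀ A, A ⊆ F → f A ≤ g A) : Ex F q f ≤ Ex F q g := by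
  unfold Ex
  refine Finset.sum_le_sum fun A hA => ?_
  have hA' : A ⊆ F := Finset.mem_powerset.mp hA
  refine mul_le_mul_of_nonneg_left (h A hA') ?_
  refine mul_nonneg (Finset.prod_nonneg fun e he => (hq e (hA' he)).1)
    (Finset.prod_nonneg fun e he => ?_)
  have := (hq e (Finset.mem_sdiff.mp he).1).2
  linarith

theorem Ex_const (F : Finset ι) (q : ι → ℝ) (c : ℝ) : Ex F q (fun _ => c) = c := by
  induction F using Finset.induction_on with
  | empty => exact Ex_empty q _
  | insert e F he ih =>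
    rw [Ex_insert he, ih]
    ring

theorem Ex_add (F : Finset ι) (q : ι → ℝ) (f g : Finset ι → ℝ) :
    Ex F q (fun A => f A + g A) = Ex F q f + Ex F q g := by
  unfold Ex
  rw [← Finset.sum_add_distrib]
  exact Finset.sum_congr rfl fun A _ => by ring

theorem Ex_sub (F : Finset ι) (q : ι → ℝ) (f g : Finset ι → ℝ) :
    Ex F q (fun A => f A - g A) = Ex F q f - Ex F q g := by
  unfold Ex
  rw [← Finset.sum_sub_distrib]
  exact Finset.sum_congr rfl fun A _ => by ring

theorem Ex_mul (F : Finset ι) (q : ι → ℝ) (c : ℝ) (f : Finset ι → ℝ) :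
    Ex F q (fun A => c * f A) = c * Ex F q f := by
  unfold Ex
  rw [Finset.mul_sum]
  exact Finset.sum_congr rfl fun A _ => by ring

theorem Ex_sum {κ : Type*} (s : Finset κ) (F : Finset ι) (q : ι → ℝ) (f : κ → Finset ι → ℝ) :
    Ex F q (fun A => ∑ k ∈ s, f k A) = ∑ k ∈ s, Ex F q (f k) := by
  unfold Ex
  rw [Finset.sum_comm]
  exact Finset.sum_congr rfl fun A _ => by rw [Finset.mul_sum]

theorem Ex_nonneg {F : Finset ι} {q : ι → ℝ} {f : Finset ι → ℝ}
    (hq : ∀ e ∈ F, 0 ≤ q e ∧ q e ≤ 1) (h : ∀ A, A ⊆ F → 0 ≤ f A) : 0 ≤ Ex F q f := by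
  have := Ex_mono (q := q) (f := fun _ => (0 : ℝ)) (g := f) hq h
  rwa [Ex_const] at this

/-- exchanging two finite expectations -/
theorem Ex_comm {κ : Type*} [DecidableEq κ] (F : Finset ι) (G : Finset κ) (q : ι → ℝ) (r : κ → ℝ)
    (f : Finset ι → Finset κ → ℝ) :
    Ex F q (fun A => Ex G r (fun B => f A B)) = Ex G r (fun B => Ex F q (fun A => f A B)) := by
  have h1 : ∀ A, Ex G r (fun B => f A B) = ∑ B ∈ G.powerset,
      ((∏ e ∈ B, r e) * ∏ e ∈ G \ B, (1 - r e)) * f A B := fun A => rfl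
  have h2 : ∀ B, Ex F q (fun A => f A B) = ∑ A ∈ F.powerset,
      ((∏ e ∈ A, q e) * ∏ e ∈ F \ A, (1 - q e)) * f A B := fun B => rfl
  unfold Ex
  simp only [Finset.mul_sum]
  rw [Finset.sum_comm]
  exact Finset.sum_congr rfl fun B _ => Finset.sum_congr rfl fun A _ => by ring

theorem ind_nonneg (P : Prop) : 0 ≤ ind P := by
  unfold ind; split_ifs <;> norm_num

theorem ind_le_one (P : Prop) : ind P ≤ 1 := by
  unfold ind; split_ifs <;> norm_num

theorem ind_mono {P Q : Prop} (h : P → Q) : ind P ≤ ind Q := by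
  unfold ind
  by_cases hP : P
  · rw [if_pos hP, if_pos (h hP)]
  · rw [if_neg hP]; split_ifs <;> norm_num

theorem ind_true {P : Prop} (h : P) : ind P = 1 := by
  unfold ind; rw [if_pos h]

theorem ind_false {P : Prop} (h : ¬ P) : ind P = 0 := by
  unfold ind; rw [if_neg h]

theorem ind_not (P : Prop) : ind (¬ P) = 1 - ind P := by
  by_cases hP : P
  · rw [ind_true hP, ind_false (not_not.mpr hP)]; ring
  · rw [ind_false hP, ind_true hP]; ring

theorem ind_and (P Q : Prop) : ind (P ∧ Q) = ind P * ind Q := by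
  by_cases hP : P
  · by_cases hQ : Q
    · rw [ind_true hP, ind_true hQ, ind_true ⟨hP, hQ⟩]; ring
    · rw [ind_false hQ, ind_false (fun h => hQ h.2)]; ring
  · rw [ind_false hP, ind_false (fun h => hP h.1)]; ring

theorem ind_or_le (P Q : Prop) : ind (P ∨ Q) ≤ ind P + ind Q := by
  by_cases hP : P
  · rw [ind_true hP, ind_true (Or.inl hP)]
    linarith [ind_nonneg Q]
  · by_cases hQ : Q
    · rw [ind_true hQ, ind_true (Or.inr hQ)]
      linarith [ind_nonneg P]
    · rw [ind_false hP, ind_false hQ, ind_false (fun h => h.elim hP hQ)]; norm_num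

end Ein99.GMA
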