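import Pool.Agent.LibGM77.P_Ex

/-!
Disjoint unions, local functions, independence, probabilities of simple events.
-/

namespace Ein99.GMA

variable {ι : Type*} [DecidableEq ι]

theorem Ex_union {F G : Finset ι} (h : Disjoint F G) (q : ι → ℝ) (f : Finset ι → ℝ) :
    Ex (F ∪ G) q f = Ex F q (fun A => Ex G q (fun B => f (A ∪ B))) := by
  induction G using Finset.induction_on generalizing f with
  | empty =>
    rw [Finset.union_empty]
    refine Ex_congr (fun _ _ => rfl) fun A _ => ?_
    rw [Ex_empty, Finset.union_empty]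
  | insert e G he ih =>
    have hFG : Disjoint F G := by
      rw [Finset.disjoint_insert_right] at h
      exact h.2
    have heF : e ∉ F := by
      rw [Finset.disjoint_insert_right] at h
      exact h.1
    have heFG : e ∉ F ∪ G := by
      rw [Finset.mem_union]; exact fun h => h.elim heF he
    rw [Finset.union_insert, Ex_insert heFG, ih hFG, ih hFG]
    have h1 : ∀ A, Ex (insert e G) q (fun B => f (A ∪ B)) =
        (1 - q e) * Ex G q (fun B => f (A ∪ B)) + q e * Ex G q (fun B => f (insert e (A ∪ B))) := by
      intro A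
      rw [Ex_insert he]
      congr 2
      refine Ex_congr (fun _ _ => rfl) fun B _ => ?_
      rw [Finset.union_insert]
    rw [Ex_congr (fun _ _ => rfl) (fun A _ => h1 A), Ex_add, Ex_mul, Ex_mul]

theorem Ex_local {F G : Finset ι} (hG : G ⊆ F) (q : ι → ℝ) (f : Finset ι → ℝ)
    (h : ∀ A, A ⊆ F → f A = f (A ∩ G)) : Ex F q f = Ex G q f := by
  have h1 : F = G ∪ (F \ G) := (Finset.union_sdiff_of_subset hG).symm
  have h2 : Ex F q f = Ex (G ∪ (F \ G)) q f := by rw [← h1]
  rw [h2, Ex_union Finset.disjoint_sdiff]
  refine Ex_congr (fun _ _ => rfl) fun A hA => ?_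
  rw [Ex_congr (f' := fun _ => f A) (fun _ _ => rfl), Ex_const]
  intro B hB
  have hB' : B ⊆ F := hB.trans Finset.sdiff_subset
  rw [h (A ∪ B) (Finset.union_subset (hA.trans hG) hB'), ]
  congr 1
  ext x
  simp only [Finset.mem_inter, Finset.mem_union]
  constructor
  · rintro ⟨hx | hx, hxG⟩
    · exact hx
    · exact absurd hxG (Finset.mem_sdiff.mp (hB hx)).2
  · intro hx
    exact ⟨Or.inl hx, hA hx⟩

theorem Ex_indep {F G : Finset ι} (q : ι → ℝ) (f g : Finset ι → ℝ)
    (hf : ∀ A, A ⊆ F → f A = f (A ∩ G)) (hg : ∀ A, A ⊆ F → g A = g (A \ G)) :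
    Ex F q (fun A => f A * g A) = Ex F q f * Ex F q g := by
  have h1 : F = (F ∩ G) ∪ (F \ G) := by
    ext x
    simp only [Finset.mem_union, Finset.mem_inter, Finset.mem_sdiff]
    tauto
  have hd : Disjoint (F ∩ G) (F \ G) := by
    rw [Finset.disjoint_left]
    intro x hx hx'
    exact (Finset.mem_sdiff.mp hx').2 (Finset.mem_inter.mp hx).2
  have hf1 : Ex F q f = Ex (F ∩ G) q f := by
    refine Ex_local Finset.inter_subset_left q f fun A hA => ?_
    rw [hf A hA]
    rw [hf (A ∩ (F ∩ G)) (Finset.inter_subset_left.trans hA)]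
    congr 1
    ext x
    simp only [Finset.mem_inter]
    constructor
    · rintro ⟨a, b⟩; exact ⟨⟨a, hA a, b⟩, b⟩
    · rintro ⟨⟨a, _, b⟩, _⟩; exact ⟨a, b⟩
  have hg1 : Ex F q g = Ex (F \ G) q g := by
    refine Ex_local Finset.sdiff_subset q g fun A hA => ?_
    rw [hg A hA]
    rw [hg (A ∩ (F \ G)) (Finset.inter_subset_left.trans hA)]
    congr 1
    ext x
    simp only [Finset.mem_inter, Finset.mem_sdiff]
    constructor
    · rintro ⟨a, b⟩; exact ⟨⟨a, hA a, b⟩, b⟩
    · rintro ⟨⟨a, _, b⟩, _⟩; exact ⟨a, b⟩
  rw [hf1, hg1]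
  have h2 : Ex F q (fun A => f A * g A) = Ex ((F ∩ G) ∪ (F \ G)) q (fun A => f A * g A) := by
    rw [← h1]
  rw [h2, Ex_union hd]
  have h3 : ∀ A, A ⊆ F ∩ G → Ex (F \ G) q (fun B => f (A ∪ B) * g (A ∪ B)) =
      Ex (F \ G) q g * f A := by
    intro A hA
    rw [Ex_congr (f' := fun B => f A * g B) (fun _ _ => rfl), Ex_mul]
    · ring
    · intro B hB
      have hAF : A ⊆ F := hA.trans Finset.inter_subset_left
      have hBF : B ⊆ F := hB.trans Finset.sdiff_subset
      have hAB : A ∪ B ⊆ F := Finset.union_subset hAF hBF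
      have e1 : f (A ∪ B) = f A := by
        rw [hf _ hAB, hf A hAF]
        congr 1
        ext x
        simp only [Finset.mem_inter, Finset.mem_union]
        constructor
        · rintro ⟨hx | hx, hxG⟩
          · exact ⟨hx, hxG⟩
          · exact absurd hxG (Finset.mem_sdiff.mp (hB hx)).2
        · rintro ⟨hx, hxG⟩; exact ⟨Or.inl hx, hxG⟩
      have e2 : g (A ∪ B) = g B := by
        rw [hg _ hAB, hg B hBF]
        congr 1
        ext x
        simp only [Finset.mem_sdiff, Finset.mem_union]
        constructor
        · rintro ⟨hx | hx, hxG⟩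
          · exact absurd (Finset.mem_inter.mp (hA hx)).2 hxG
          · exact ⟨hx, hxG⟩
        · rintro ⟨hx, hxG⟩; exact ⟨Or.inr hx, hxG⟩
      rw [e1, e2]
  rw [Ex_congr (fun _ _ => rfl) h3, Ex_mul, mul_comm]

theorem Ex_avoid {F W : Finset ι} (hW : W ⊆ F) (q : ι → ℝ) :
    Ex F q (fun A => ind (Disjoint W A)) = ∏ e ∈ W, (1 - q e) := by
  rw [Ex_local hW q]
  · clear hW
    induction W using Finset.induction_on with
    | empty =>
      rw [Ex_empty]; simp [ind]
    | insert e W he ih =>
      rw [Ex_insert he, Finset.prod_insert he]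
      have h1 : Ex W q (fun A => ind (Disjoint (insert e W) A)) =
          Ex W q (fun A => ind (Disjoint W A)) := by
        refine Ex_congr (fun _ _ => rfl) fun A hA => ?_
        congr 1
        apply propext
        rw [Finset.disjoint_insert_left]
        exact ⟨fun h => h.2, fun h => ⟨fun h' => he (hA h'), h⟩⟩
      have h2 : Ex W q (fun A => ind (Disjoint (insert e W) (insert e A))) =
          Ex W q (fun _ => 0) := by
        refine Ex_congr (fun _ _ => rfl) fun A hA => ?_
        rw [ind_false]
        rw [Finset.disjoint_left]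
        intro h
        exact h (Finset.mem_insert_self e W) (Finset.mem_insert_self e A)
      rw [h1, ih, h2, Ex_const]
      ring
  · intro A hA
    congr 1
    apply propext
    rw [Finset.disjoint_left, Finset.disjoint_left]
    constructor
    · intro h x hx hx'
      exact h hx (Finset.mem_inter.mp hx').1
    · intro h x hx hx'
      exact h hx (Finset.mem_inter.mpr ⟨hx', hx⟩)

theorem Ex_contain {F W : Finset ι} (hW : W ⊆ F) (q : ι → ℝ) :
    Ex F q (fun A => ind (W ⊆ A)) = ∏ e ∈ W, q e := by
  rw [Ex_local hW q]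
  · clear hW
    induction W using Finset.induction_on with
    | empty =>
      rw [Ex_empty]; simp [ind]
    | insert e W he ih =>
      rw [Ex_insert he, Finset.prod_insert he]
      have h1 : Ex W q (fun A => ind (insert e W ⊆ A)) = Ex W q (fun _ => 0) := by
        refine Ex_congr (fun _ _ => rfl) fun A hA => ?_
        rw [ind_false]
        intro h
        exact he (hA (h (Finset.mem_insert_self e W)))
      have h2 : Ex W q (fun A => ind (insert e W ⊆ insert e A)) =
          Ex W q (fun A => ind (W ⊆ A)) := by
        refine Ex_congr (fun _ _ => rfl) fun A hA => ?_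
        congr 1
        apply propext
        constructor
        · intro h x hx
          have := h (Finset.mem_insert_of_mem hx)
          rw [Finset.mem_insert] at this
          rcases this with h' | h'
          · rw [h'] at hx; exact absurd hx he
          · exact h'
        · intro h
          exact Finset.insert_subset_insert e h
      rw [h1, Ex_const, h2, ih]
      ring
  · intro A hA
    congr 1
    apply propext
    constructor
    · intro h x hx
      exact Finset.mem_inter.mpr ⟨h hx, hx⟩
    · intro h x hx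
      exact (Finset.mem_inter.mp (h hx)).1

end Ein99.GMA
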