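import Pool.Agent.LibGM77.P_Ex2

/-!
TASK P_Merge. Union of two independent layers; monotonicity in the probabilities.

`Ex_merge`: induction on `F` (for all `f`), `Ex_insert` on both sides: with `q = q e` etc. the right side
is the sum of the four cases `(1-a)(1-r)`, `a (1-r)`, `(1-a) r`, `a r`; the last three all give
`insert e (A ∪ B)`, and `1 - (1-a)(1-r) = q`. (`Ex_comm` may help.)
`Ex_mono_q`: induction on `F` with `Ex_insert`: `(1-q) X + q Y ≤ (1-q') X' + q' Y'` when `X ≤ X'`, `Y ≤ Y'`,
`X' ≤ Y'`, `0 ≤ q ≤ q' ≤ 1`.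
-/

namespace Ein99.GMA

variable {ι : Type*} [DecidableEq ι]

private theorem Ex_lin (F : Finset ι) (q : ι → ℝ) (c c' : ℝ) (f g : Finset ι → ℝ) :
    Ex F q (fun A => c * f A + c' * g A) = c * Ex F q f + c' * Ex F q g := by
  rw [Ex_add, Ex_mul, Ex_mul]

theorem Ex_merge {F : Finset ι} (q a r : ι → ℝ) (h : ∀ e ∈ F, 1 - q e = (1 - a e) * (1 - r e))
    (f : Finset ι → ℝ) : Ex F q f = Ex F a (fun A => Ex F r (fun B => f (A ∪ B))) := by
  induction F using Finset.induction_on generalizing f with
  | empty => simp only [Ex_empty, Finset.empty_union]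
  | insert e F he ih =>
    have ih' : ∀ f : Finset ι → ℝ,
        Ex F q f = Ex F a (fun A => Ex F r (fun B => f (A ∪ B))) :=
      fun f => ih (fun x hx => h x (Finset.mem_insert_of_mem hx)) f
    have h1 : ∀ A : Finset ι, Ex (insert e F) r (fun B => f (A ∪ B))
        = (1 - r e) * Ex F r (fun B => f (A ∪ B)) + r e * Ex F r (fun B => f (insert e (A ∪ B))) := by
      intro A
      rw [Ex_insert he]
      congr 2
      congr 1
      funext B
      rw [Finset.union_insert]
    have h2 : ∀ A : Finset ι, Ex (insert e F) r (fun B => f (insert e A ∪ B))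
        = Ex F r (fun B => f (insert e (A ∪ B))) := by
      intro A
      rw [Ex_insert he]
      have e1 : (fun B => f (insert e A ∪ B)) = (fun B => f (insert e (A ∪ B))) := by
        funext B
        rw [Finset.insert_union]
      have e2 : (fun B => f (insert e A ∪ insert e B)) = (fun B => f (insert e (A ∪ B))) := by
        funext B
        rw [Finset.insert_union, Finset.union_insert, Finset.insert_idem]
      rw [e1, e2]
      ring
    have e3 : (fun A => Ex (insert e F) r (fun B => f (A ∪ B)))
        = fun A => (1 - r e) * Ex F r (fun B => f (A ∪ B))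
          + r e * Ex F r (fun B => f (insert e (A ∪ B))) := funext h1
    have e4 : (fun A => Ex (insert e F) r (fun B => f (insert e A ∪ B)))
        = fun A => Ex F r (fun B => f (insert e (A ∪ B))) := funext h2
    have e5 : Ex F a (fun A => (1 - r e) * Ex F r (fun B => f (A ∪ B))
          + r e * Ex F r (fun B => f (insert e (A ∪ B))))
        = (1 - r e) * Ex F a (fun A => Ex F r (fun B => f (A ∪ B)))
          + r e * Ex F a (fun A => Ex F r (fun B => f (insert e (A ∪ B)))) := Ex_lin F a _ _ _ _
    rw [Ex_insert he a, e4, e3, e5, Ex_insert he, ih' f, ih' (fun A => f (insert e A))]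
    have hq := h e (Finset.mem_insert_self e F)
    have hq' : q e = 1 - (1 - a e) * (1 - r e) := by linarith
    rw [hq']
    ring

theorem Ex_mono_q {F : Finset ι} {q q' : ι → ℝ} {f : Finset ι → ℝ}
    (h : ∀ e ∈ F, 0 ≤ q e ∧ q e ≤ q' e ∧ q' e ≤ 1)
    (hf : ∀ A B, A ⊆ B → B ⊆ F → f A ≤ f B) : Ex F q f ≤ Ex F q' f := by
  induction F using Finset.induction_on generalizing f with
  | empty => simp only [Ex_empty]; exact le_refl _
  | insert e F he ih =>
    have hF : ∀ x ∈ F, 0 ≤ q x ∧ q x ≤ q' x ∧ q' x ≤ 1 :=
      fun x hx => h x (Finset.mem_insert_of_mem hx)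
    have hX : Ex F q f ≤ Ex F q' f := by
      apply ih hF
      intro A B hAB hB
      exact hf A B hAB (hB.trans (Finset.subset_insert e F))
    have hY : Ex F q (fun A => f (insert e A)) ≤ Ex F q' (fun A => f (insert e A)) := by
      apply ih hF
      intro A B hAB hB
      exact hf _ _ (Finset.insert_subset_insert e hAB) (Finset.insert_subset_insert e hB)
    have hXY : Ex F q' f ≤ Ex F q' (fun A => f (insert e A)) := by
      apply Ex_mono
      · intro x hx
        obtain ⟨h0, h1, h2⟩ := hF x hx
        exact ⟨h0.trans h1, h2⟩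
      · intro A hA
        exact hf _ _ (Finset.subset_insert e A) (Finset.insert_subset_insert e hA)
    obtain ⟨h0, h1, h2⟩ := h e (Finset.mem_insert_self e F)
    rw [Ex_insert he, Ex_insert he]
    nlinarith [mul_nonneg (sub_nonneg.2 h1) (sub_nonneg.2 hXY), mul_nonneg h0 (sub_nonneg.2 hY),
      mul_nonneg (sub_nonneg.2 (h1.trans h2)) (sub_nonneg.2 hX)]

end Ein99.GMA
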