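import Pool.Agent.LibGM77.C_Reach

/-!
TASK S_Core. The event `Core` for unions, monotonicity and locality.

`core_of`: `M = reach B (Bx R 0) (cube)` where `cube = Bx m (N • z0)`: two vertices of the cube are
joined inside it by edges of `A` (`box_open`); every other vertex of `M` is joined in `Bx R 0` by edges of
`B` to a vertex of the cube. `JoinIn` is symmetric and transitive (`JoinIn_symm`,
`Relation.ReflTransGen.trans`), and monotone (`JoinIn_om_mono`).
`Loc_Core`: only the edges of `EB R 0` matter for `JoinIn ω (Bx R 0)` (`Loc_JoinIn`).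
-/

namespace Ein99.GMA

variable {d : ℕ}

theorem core_of {N k ρ m R : ℕ} {z0 : V d} {A B : Finset (Ed d)}
    (hA : EB m ((N : ℤ) • z0) ⊆ A) (hL : Bx m ((N : ℤ) • z0) ⊆ Bx R (0 : V d))
    (h : Hits N k ρ (reach B (Bx R (0 : V d)) (Bx m ((N : ℤ) • z0)) : Set (V d))) :
    Core N k ρ R (om (A ∪ B)) := by
  refine ⟨_, ?_, ?_, h⟩
  · intro x hx
    have h1 := reach_subset B (Bx R (0 : V d)) (Bx m ((N : ℤ) • z0)) (Finset.mem_coe.1 hx)
    rcases Finset.mem_union.1 h1 with h2 | h2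
    · exact Finset.mem_coe.2 (hL h2)
    · exact Finset.mem_coe.2 h2
  · have key : ∀ x ∈ (reach B (Bx R (0 : V d)) (Bx m ((N : ℤ) • z0)) : Set (V d)),
        ∃ x0 ∈ Bx m ((N : ℤ) • z0), JoinIn (om (A ∪ B)) (Bx R (0 : V d) : Set (V d)) x0 x := by
      intro x hx
      rcases mem_reach.1 (Finset.mem_coe.1 hx) with h1 | ⟨_, x0, h2, h3⟩
      · exact ⟨x, h1, Relation.ReflTransGen.refl⟩
      · exact ⟨x0, h2, JoinIn_om_mono Finset.subset_union_right (Set.Subset.refl _) h3⟩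
    intro x hx y hy
    obtain ⟨x0, hx0, hxj⟩ := key x hx
    obtain ⟨y0, hy0, hyj⟩ := key y hy
    have h0 : JoinIn (om (A ∪ B)) (Bx R (0 : V d) : Set (V d)) x0 y0 :=
      JoinIn_om_mono Finset.subset_union_left (by exact_mod_cast hL) (box_open hA hx0 hy0)
    exact ((JoinIn_symm _ _ hxj).trans h0).trans hyj

theorem Core_mono {N k ρ R : ℕ} {A B : Finset (Ed d)} (hAB : A ⊆ B)
    (h : Core N k ρ R (om A)) : Core N k ρ R (om B) := by
  obtain ⟨M, h1, h2, h3⟩ := h
  exact ⟨M, h1, fun x hx y hy => JoinIn_om_mono hAB (Set.Subset.refl _) (h2 x hx y hy), h3⟩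

theorem Loc_Core (N k ρ R : ℕ) :
    Loc (EB R (0 : V d) : Set (Ed d)) (fun ω : Om d => Core N k ρ R ω) := by
  intro ω ω' h
  have h1 : ∀ x y, JoinIn ω (Bx R (0 : V d) : Set (V d)) x y
      = JoinIn ω' (Bx R (0 : V d) : Set (V d)) x y :=
    fun x y => Loc_JoinIn R 0 x y ω ω' h
  simp only [Core, h1]

end Ein99.GMA
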