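import Pool.Agent.LibGM77.P_Ex2

/-!
TASK S_Cubes. Disjoint sets of edges, none of which is completely open.

Induction on `t`: `ind (∀ i ∈ insert j t, ..) = ind (¬ G j ⊆ A) * ind (∀ i ∈ t, ..)`; the first factor
depends only on `A ∩ G j`, the second only on `A \ G j` (disjointness), so `Ex_indep`; `Ex_contain` and
`ind_not`, `Ex_sub`, `Ex_const`.
-/

namespace Ein99.GMA

theorem Ex_none_full {ι κ : Type*} [DecidableEq ι] [DecidableEq κ] (t : Finset κ) (F : Finset ι)
    (G : κ → Finset ι) (hG : ∀ i ∈ t, G i ⊆ F)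
    (hd : ∀ i ∈ t, ∀ j ∈ t, i ≠ j → Disjoint (G i) (G j)) (q : ι → ℝ) :
    Ex F q (fun A => ind (∀ i ∈ t, ¬ G i ⊆ A)) = ∏ i ∈ t, (1 - ∏ e ∈ G i, q e) := by
  induction t using Finset.induction_on with
  | empty =>
    have h : (fun A : Finset ι => ind (∀ i ∈ (∅ : Finset κ), ¬ G i ⊆ A)) = fun _ => (1 : ℝ) := by
      funext A
      exact ind_true (fun i hi => absurd hi (Finset.notMem_empty i))
    rw [h, Ex_const, Finset.prod_empty]
  | insert j t hj ih =>
    have ih' := ih (fun i hi => hG i (Finset.mem_insert_of_mem hi))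
      (fun i hi k hk => hd i (Finset.mem_insert_of_mem hi) k (Finset.mem_insert_of_mem hk))
    have h1 : (fun A : Finset ι => ind (∀ i ∈ insert j t, ¬ G i ⊆ A)) =
        fun A => ind (¬ G j ⊆ A) * ind (∀ i ∈ t, ¬ G i ⊆ A) := by
      funext A
      rw [← ind_and]
      congr 1
      rw [Finset.forall_mem_insert]
    rw [h1, Ex_indep (G := G j) q (fun A => ind (¬ G j ⊆ A)) (fun A => ind (∀ i ∈ t, ¬ G i ⊆ A)),
      ih', Finset.prod_insert hj]
    · congr 1
      have h2 : (fun A : Finset ι => ind (¬ G j ⊆ A)) = fun A => 1 - ind (G j ⊆ A) := by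
        funext A
        exact ind_not _
      rw [h2, Ex_sub, Ex_const, Ex_contain (hG j (Finset.mem_insert_self j t))]
    · intro A _
      congr 1
      rw [Finset.subset_inter_iff]
      simp
    · intro A _
      congr 1
      apply propext
      refine forall_congr' fun i => forall_congr' fun hi => not_congr ?_
      have hdis := hd i (Finset.mem_insert_of_mem hi) j (Finset.mem_insert_self j t)
        (fun h => hj (h ▸ hi))
      rw [Finset.subset_sdiff]
      exact ⟨fun h => ⟨h, hdis⟩, fun h => h.1⟩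

end Ein99.GMA
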