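import Pool.Agent.LibGM77.P_Merge
import Pool.Agent.LibGM77.S_Cubes
import Pool.Agent.LibGM77.S_Core

/-!
TASK S_Start. One of many cubes is open: start of the exploration.

`Ex_merge` with `a = P.δ`, `r = Qv P 0` on `eIn (Bx R' 0)`. Cubes: `z_i = Pi.single i0 i`, `i < t`
(`z_i ∈ Bx ρ 0` because `t ≤ ρ + 1`), `G i = EB P.m (P.N • z_i)`, pairwise disjoint since
`P.N ≥ 2 P.m + 1` (`hP.hmn`), contained in `eIn (Bx R' 0)` by `hL`. For fixed `A`: if `G i ⊆ A` for some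
`i < t` then by `core_of` and `hrun`:
`Ex .. (fun B => ind (¬ Core (om (A ∪ B)))) ≤ Ex .. (fun B => 1 - fH (reach B ..)) ≤ η`. So the
expectation is at most `Ex .. (ind (∀ i < t, ¬ G i ⊆ A)) + η`, and `Ex_none_full`,
`∏ e ∈ G i, δ = δ ^ card (G i) ≥ δ ^ (d (2m+1)^d)` (`card_EB_le`).
-/

namespace Ein99.GMA

variable {d : ℕ}

theorem Qv_zero_mem (P : Par d) (hP : P.OK) : 0 ≤ Qv P 0 ∧ Qv P 0 ≤ 1 := by
  have h1 : 0 ≤ 1 - P.p1 := by linarith [hP.hp1]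
  have h2 : 1 - P.p1 ≤ 1 := by linarith [hP.hδ, hP.hp]
  have h3 : 0 ≤ 1 - P.δ := by linarith [hP.hp, hP.hp1]
  have h4 : 1 - P.δ ≤ 1 := by linarith [hP.hδ]
  have h5 : 0 ≤ (1 - P.δ) ^ (Jn d) := pow_nonneg h3 _
  have h6 : (1 - P.δ) ^ (Jn d) ≤ 1 := pow_le_one₀ h3 h4
  unfold Qv
  rw [if_pos rfl]
  constructor
  · have : (1 - P.p1) * (1 - P.δ) ^ (Jn d) ≤ 1 := mul_le_one₀ h2 h5 h6
    linarith
  · have : 0 ≤ (1 - P.p1) * (1 - P.δ) ^ (Jn d) := mul_nonneg h1 h5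
    linarith

theorem single_mem_Bx (i0 : Fin d) {ρ i : ℕ} (h : i ≤ ρ) :
    (Pi.single i0 (i : ℤ) : V d) ∈ Bx ρ (0 : V d) := by
  rw [mem_Bx]
  intro j
  by_cases hj : j = i0
  · subst hj
    simp only [Pi.single_eq_same, Pi.zero_apply, sub_zero, Nat.abs_cast]
    exact_mod_cast h
  · simp [Pi.single_eq_of_ne hj]

theorem cubes_disjoint (P : Par d) (hP : P.OK) (i0 : Fin d) {i j : ℕ} (hij : i ≠ j) :
    Disjoint (EB P.m ((P.N : ℤ) • (Pi.single i0 (i : ℤ) : V d)))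
      (EB P.m ((P.N : ℤ) • (Pi.single i0 (j : ℤ) : V d))) := by
  rw [Finset.disjoint_left]
  intro e he he'
  have h1 := abs_le.1 (mem_Bx.1 (mem_EB.1 he).1 i0)
  have h2 := abs_le.1 (mem_Bx.1 (mem_EB.1 he').1 i0)
  simp only [Pi.smul_apply, Pi.single_eq_same, smul_eq_mul] at h1 h2
  have hN : 2 * (P.m : ℤ) + 1 ≤ (P.N : ℤ) := by
    have := hP.hmn
    unfold Par.N
    push_cast
    have h3 : (P.m : ℤ) ≤ (P.n : ℤ) := by exact_mod_cast this
    linarith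
  have hm0 : (0 : ℤ) ≤ (P.m : ℤ) := Int.natCast_nonneg _
  rcases lt_or_gt_of_ne hij with h | h
  · have h3 : (i : ℤ) + 1 ≤ (j : ℤ) := by exact_mod_cast h
    have h4 : (P.N : ℤ) * ((i : ℤ) + 1) ≤ (P.N : ℤ) * (j : ℤ) :=
      mul_le_mul_of_nonneg_left h3 (by linarith)
    linarith [h1.1, h1.2, h2.1, h2.2]
  · have h3 : (j : ℤ) + 1 ≤ (i : ℤ) := by exact_mod_cast h
    have h4 : (P.N : ℤ) * ((j : ℤ) + 1) ≤ (P.N : ℤ) * (i : ℤ) :=
      mul_le_mul_of_nonneg_left h3 (by linarith)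
    linarith [h1.1, h1.2, h2.1, h2.2]

theorem start (P : Par d) (hP : P.OK) (i0 : Fin d) (k ρ R' t : ℕ) (ht : t ≤ ρ + 1) {η : ℝ}
    (hη : 0 ≤ η)
    (hL : ∀ z ∈ Bx ρ (0 : V d), Bx P.m ((P.N : ℤ) • z) ⊆ Bx R' (0 : V d))
    (hrun : ∀ z0 ∈ Bx ρ (0 : V d), 1 - η ≤ Ex (eIn (Bx R' (0 : V d))) (fun _ => Qv P 0)
      (fun A => fH P.N k ρ (reach A (Bx R' (0 : V d)) (Bx P.m ((P.N : ℤ) • z0)))))
    (q : ℝ) (hq : 1 - q = (1 - P.δ) * (1 - Qv P 0)) :
    Ex (eIn (Bx R' (0 : V d))) (fun _ => q) (fun A => ind (¬ Core P.N k ρ R' (om A)))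
      ≤ (1 - P.δ ^ (d * (2 * P.m + 1) ^ d)) ^ t + η := by
  classical
  have hδ0 : 0 ≤ P.δ := hP.hδ.le
  have hδ1 : P.δ ≤ 1 := hP.hp.trans hP.hp1
  have hQ := Qv_zero_mem P hP
  set F : Finset (Ed d) := eIn (Bx R' (0 : V d)) with hF
  rw [Ex_merge (F := F) (fun _ => q) (fun _ => P.δ) (fun _ => Qv P 0) (fun e _ => hq)]
  set G : ℕ → Finset (Ed d) := fun i => EB P.m ((P.N : ℤ) • (Pi.single i0 (i : ℤ) : V d)) with hG
  have hz : ∀ i ∈ Finset.range t, (Pi.single i0 (i : ℤ) : V d) ∈ Bx ρ (0 : V d) := by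
    intro i hi
    exact single_mem_Bx i0 (by have := Finset.mem_range.1 hi; omega)
  have hGF : ∀ i ∈ Finset.range t, G i ⊆ F := fun i hi => eIn_mono (hL _ (hz i hi))
  have hGd : ∀ i ∈ Finset.range t, ∀ j ∈ Finset.range t, i ≠ j → Disjoint (G i) (G j) :=
    fun i _ j _ hij => cubes_disjoint P hP i0 hij
  have inner : ∀ A, A ⊆ F → Ex F (fun _ => Qv P 0)
      (fun B => ind (¬ Core P.N k ρ R' (om (A ∪ B))))
      ≤ ind (∀ i ∈ Finset.range t, ¬ G i ⊆ A) + η := by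
    intro A _
    by_cases hA : ∀ i ∈ Finset.range t, ¬ G i ⊆ A
    · rw [ind_true hA]
      have h1 : Ex F (fun _ => Qv P 0) (fun B => ind (¬ Core P.N k ρ R' (om (A ∪ B))))
          ≤ Ex F (fun _ => Qv P 0) (fun _ => (1 : ℝ)) :=
        Ex_mono (fun _ _ => hQ) (fun B _ => ind_le_one _)
      rw [Ex_const] at h1
      linarith
    · rw [ind_false hA]
      push Not at hA
      obtain ⟨i, hi, hGi⟩ := hA
      have h1 : Ex F (fun _ => Qv P 0) (fun B => ind (¬ Core P.N k ρ R' (om (A ∪ B))))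
          ≤ Ex F (fun _ => Qv P 0) (fun B => (1 : ℝ) - fH P.N k ρ (reach B (Bx R' (0 : V d))
            (Bx P.m ((P.N : ℤ) • (Pi.single i0 (i : ℤ) : V d))))) := by
        refine Ex_mono (fun _ _ => hQ) (fun B _ => ?_)
        unfold fH
        by_cases hH : Hits P.N k ρ (reach B (Bx R' (0 : V d))
            (Bx P.m ((P.N : ℤ) • (Pi.single i0 (i : ℤ) : V d))) : Set (V d))
        · rw [ind_true hH, ind_false (not_not.2 (core_of hGi (hL _ (hz i hi)) hH))]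
          norm_num
        · rw [ind_false hH]
          have := ind_le_one (¬ Core P.N k ρ R' (om (A ∪ B)))
          linarith
      rw [Ex_sub, Ex_const] at h1
      have h2 := hrun _ (hz i hi)
      linarith
  have outer : Ex F (fun _ => P.δ) (fun A => Ex F (fun _ => Qv P 0)
      (fun B => ind (¬ Core P.N k ρ R' (om (A ∪ B)))))
      ≤ Ex F (fun _ => P.δ) (fun A => ind (∀ i ∈ Finset.range t, ¬ G i ⊆ A) + η) :=
    Ex_mono (fun _ _ => ⟨hδ0, hδ1⟩) inner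
  rw [Ex_add, Ex_const, Ex_none_full (Finset.range t) F G hGF hGd] at outer
  refine outer.trans ?_
  have hprod : ∏ i ∈ Finset.range t, (1 - ∏ e ∈ G i, P.δ)
      ≤ ∏ i ∈ Finset.range t, (1 - P.δ ^ (d * (2 * P.m + 1) ^ d)) := by
    refine Finset.prod_le_prod (fun i _ => ?_) (fun i _ => ?_)
    · rw [Finset.prod_const]
      have := pow_le_one₀ (n := (G i).card) hδ0 hδ1
      linarith
    · rw [Finset.prod_const]
      have hc : (G i).card ≤ d * (2 * P.m + 1) ^ d := by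
        have := card_EB_le P.m ((P.N : ℤ) • (Pi.single i0 (i : ℤ) : V d))
        exact_mod_cast this
      have := pow_le_pow_of_le_one hδ0 hδ1 hc
      linarith
  rw [Finset.prod_const, Finset.card_range] at hprod
  linarith

end Ein99.GMA
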