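import Pool.Agent.LibGM77.P_Bridge
import Pool.Agent.LibGM77.E_Run
import Pool.Agent.LibGM77.S_Start

/-!
TASK S_Final. The core cluster exists with high probability.

`δ = (p1 - p0) / (Jn d + 2)`, `P.p1 = 1 - (1 - p0) (1 - δ)` (so `δ ≤ P.p1 ≤ 1` and `p0 ≤ P.p1`, hence
`StepOK d ε δ p0 m n → StepOK d ε δ P.p1 m n`), `ε = min (η/4) (1/(2*3^d))`, `m, n` from `hstep`,
`N = n + m + 1`; for each `t` (large): `P = ⟨m, n, 3 t^2 - 3, P.p1, δ⟩`, `k = t`, `ρ = 3 t^2 - t - 4`,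
`R' = 3 (N t^2) = N (P.R + 3)`. `run_hits` gives `hrun` with error
`((2R+1)^d (1/2)^t + 1) ε ≤ 2 ε ≤ η/2` for large `t` (`(6 t^2)^d / 2^t → 0`), `start` gives
`≤ (1 - κ)^t + η/2 ≤ η` for large `t`, `κ > 0`, with `q = 1 - (1-p0)(1-δ)^(Jn d + 2)`.
`q ≤ p1`: `(1-δ)^(J+2) ≥ 1 - (J+2) δ = 1 - (p1 - p0)` (`one_add_mul_le_pow`), so
`(1-p0)(1-δ)^(J+2) ≥ (1-p0) (1 - (p1-p0)) ≥ 1 - p1`. Finally `bridge_Pr` (`Loc_Core`, and the negation is
local too) and `Ex_mono_q` for `ind (Core ..)` (`Core_mono`), `ind_not`.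
-/

open MeasureTheory ProbabilityTheory Filter Topology

namespace Ein99.GMA

variable {d : ℕ}

theorem StepOK.mono_p {ε δ p1 p1' : ℝ} {m n : ℕ} (h : StepOK d ε δ p1 m n) (hp : p1 ≤ p1') :
    StepOK d ε δ p1' m n := by
  intro b i g C hC a ha ha'
  exact h b i g C hC a ha (fun e he hne => hp.trans (ha' e he hne))

theorem core_all (hd : 2 ≤ d) (p0 p1 : unitInterval) (hp : p0 < p1)
    (hstep : ∀ ε δ : ℝ, 0 < ε → 0 < δ → δ ≤ 1 → ∃ m n : ℕ, m ≤ n ∧ StepOK d ε δ (p0 : ℝ) m n)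
    (η : ℝ) (hη : 0 < η) :
    ∃ N : ℕ, 1 ≤ N ∧ ∀ᶠ t : ℕ in atTop,
      (Pr d p1).real {ω : Om d | ¬ Core N t (3 * t ^ 2 - t - 4) (3 * (N * t ^ 2)) ω} ≤ η := by
  have hp' : (p0 : ℝ) < (p1 : ℝ) := hp
  have h00 : (0 : ℝ) ≤ (p0 : ℝ) := p0.2.1
  have h11 : (p1 : ℝ) ≤ 1 := p1.2.2
  set J : ℕ := Jn d with hJ
  have hJ2 : (0 : ℝ) < (J : ℝ) + 2 := by positivity
  set δ : ℝ := ((p1 : ℝ) - (p0 : ℝ)) / ((J : ℝ) + 2) with hδdef
  have hδ0 : 0 < δ := div_pos (by linarith) hJ2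
  have hδJ : ((J : ℝ) + 2) * δ = (p1 : ℝ) - (p0 : ℝ) := by
    rw [hδdef]; field_simp
  have hδ1 : δ ≤ 1 := by
    rw [hδdef, div_le_one hJ2]
    have : (0 : ℝ) ≤ (J : ℝ) := Nat.cast_nonneg _
    linarith
  set pp : ℝ := 1 - (1 - (p0 : ℝ)) * (1 - δ) with hpp
  have hp01 : (p0 : ℝ) ≤ 1 := by linarith
  have hppδ : δ ≤ pp := by
    rw [hpp]; nlinarith
  have hpp0 : (p0 : ℝ) ≤ pp := by
    rw [hpp]; nlinarith
  have hpp1 : pp ≤ 1 := by
    rw [hpp]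
    have : 0 ≤ (1 - (p0 : ℝ)) * (1 - δ) := mul_nonneg (by linarith) (by linarith)
    linarith
  set ε : ℝ := min (η / 4) (1 / (2 * 3 ^ d)) with hε
  have hε0 : 0 < ε := lt_min (by linarith) (by positivity)
  have hε2 : 3 ^ d * ε ≤ 1 / 2 := by
    have h1 : ε ≤ 1 / (2 * 3 ^ d) := min_le_right _ _
    have h2 : (3 : ℝ) ^ d * ε ≤ 3 ^ d * (1 / (2 * 3 ^ d)) :=
      mul_le_mul_of_nonneg_left h1 (by positivity)
    refine h2.trans (le_of_eq ?_)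
    field_simp
  have hεη : ε ≤ η / 4 := min_le_left _ _
  obtain ⟨m, n, hmn, hs⟩ := hstep ε δ hε0 hδ0 hδ1
  have hst : StepOK d ε δ pp m n := hs.mono_p hpp0
  refine ⟨n + m + 1, by omega, ?_⟩
  set κ : ℝ := δ ^ (d * (2 * m + 1) ^ d) with hκ
  have hκ0 : 0 < κ := pow_pos hδ0 _
  have hκ1 : κ ≤ 1 := pow_le_one₀ hδ0.le hδ1
  have lim1 : Tendsto (fun t : ℕ => (1 - κ) ^ t) atTop (𝓝 0) :=
    tendsto_pow_atTop_nhds_zero_of_lt_one (by linarith) (by linarith)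
  have lim2 : Tendsto (fun t : ℕ => (6 : ℝ) ^ d * ((t : ℝ) ^ (2 * d) * (1 / 2 : ℝ) ^ t)) atTop
      (𝓝 0) := by
    have := (tendsto_pow_const_mul_const_pow_of_abs_lt_one (2 * d) (r := (1 / 2 : ℝ))
      (by rw [abs_of_pos (by norm_num)]; norm_num)).const_mul ((6 : ℝ) ^ d)
    simpa using this
  have ev1 : ∀ᶠ t : ℕ in atTop, (1 - κ) ^ t ≤ η / 2 :=
    (lim1.eventually (gt_mem_nhds (show (0 : ℝ) < η / 2 by linarith))).mono (fun t ht => le_of_lt ht)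
  have ev2 : ∀ᶠ t : ℕ in atTop, (6 : ℝ) ^ d * ((t : ℝ) ^ (2 * d) * (1 / 2 : ℝ) ^ t) ≤ 1 :=
    (lim2.eventually (gt_mem_nhds (show (0 : ℝ) < 1 by norm_num))).mono (fun t ht => le_of_lt ht)
  filter_upwards [ev1, ev2, eventually_ge_atTop 2] with t h1 h2 ht2
  set P : Par d := ⟨m, n, 3 * t ^ 2 - 3, pp, δ⟩ with hP
  have ht4 : 4 ≤ t ^ 2 := by nlinarith
  have htt : 2 * t ≤ t ^ 2 := by nlinarith
  have hPOK : P.OK := ⟨hmn, hδ0, hppδ, hpp1⟩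
  have hPN : P.N = n + m + 1 := rfl
  have hPR : P.R = 3 * t ^ 2 - 3 := rfl
  have hR : P.R = (3 * t ^ 2 - t - 4) + t + 1 := by
    rw [hPR]; omega
  have hNR : P.N * (P.R + 3) = 3 * ((n + m + 1) * t ^ 2) := by
    rw [hPN, hPR]
    have : 3 * t ^ 2 - 3 + 3 = 3 * t ^ 2 := by omega
    rw [this]; ring
  set R' : ℕ := 3 * ((n + m + 1) * t ^ 2) with hR'
  set ρ : ℕ := 3 * t ^ 2 - t - 4 with hρ
  set η1 : ℝ := ((2 * (P.R : ℝ) + 1) ^ d * (1 / 2 : ℝ) ^ t + 1) * ε with hη1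
  have hη1' : η1 ≤ η / 2 := by
    have hR6 : (2 * (P.R : ℝ) + 1) ≤ 6 * (t : ℝ) ^ 2 := by
      have : 2 * P.R + 1 ≤ 6 * t ^ 2 := by rw [hPR]; omega
      exact_mod_cast this
    have h3 : (2 * (P.R : ℝ) + 1) ^ d ≤ 6 ^ d * (t : ℝ) ^ (2 * d) := by
      calc (2 * (P.R : ℝ) + 1) ^ d ≤ (6 * (t : ℝ) ^ 2) ^ d :=
            pow_le_pow_left₀ (by positivity) hR6 d
        _ = 6 ^ d * (t : ℝ) ^ (2 * d) := by rw [mul_pow, ← pow_mul]
    have h4 : (2 * (P.R : ℝ) + 1) ^ d * (1 / 2 : ℝ) ^ t ≤ 1 := by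
      refine le_trans (mul_le_mul_of_nonneg_right h3 (by positivity)) ?_
      rw [mul_assoc]; exact h2
    have h5 : η1 ≤ 2 * ε := by
      rw [hη1]
      apply mul_le_mul_of_nonneg_right _ hε0.le
      linarith
    linarith
  have hη10 : 0 ≤ η1 := by
    rw [hη1]; positivity
  have hL : ∀ z ∈ Bx ρ (0 : V d), Bx P.m ((P.N : ℤ) • z) ⊆ Bx R' (0 : V d) := by
    intro z hz y hy
    unfold Bx at hz hy ⊢
    rw [Finset.mem_Icc] at hz hy ⊢
    have hρN : ((n + m + 1) * ρ + m : ℕ) ≤ R' := by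
      rw [hR']
      have : ρ + 1 ≤ 3 * t ^ 2 := by omega
      calc (n + m + 1) * ρ + m ≤ (n + m + 1) * ρ + (n + m + 1) := by omega
        _ = (n + m + 1) * (ρ + 1) := by ring
        _ ≤ (n + m + 1) * (3 * t ^ 2) := Nat.mul_le_mul_left _ this
        _ = 3 * ((n + m + 1) * t ^ 2) := by ring
    have hρN' : ((n : ℤ) + m + 1) * ρ + m ≤ R' := by exact_mod_cast hρN
    constructor
    · intro i
      have a1 := hz.1 i
      have a3 := hy.1 i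
      simp only [Pi.zero_apply, Pi.smul_apply, smul_eq_mul] at a1 a3 ⊢
      rw [hPN] at a3
      push_cast at a3
      have a4 : ((n : ℤ) + m + 1) * (0 - ρ) ≤ ((n : ℤ) + m + 1) * z i :=
        mul_le_mul_of_nonneg_left a1 (by positivity)
      have hPm : (P.m : ℤ) = m := rfl
      rw [hPm] at a3
      nlinarith
    · intro i
      have a1 := hz.2 i
      have a3 := hy.2 i
      simp only [Pi.zero_apply, Pi.smul_apply, smul_eq_mul] at a1 a3 ⊢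
      rw [hPN] at a3
      push_cast at a3
      have a4 : ((n : ℤ) + m + 1) * z i ≤ ((n : ℤ) + m + 1) * (0 + ρ) :=
        mul_le_mul_of_nonneg_left a1 (by positivity)
      have hPm : (P.m : ℤ) = m := rfl
      rw [hPm] at a3
      nlinarith
  have hrun : ∀ z0 ∈ Bx ρ (0 : V d), 1 - η1 ≤ Ex (eIn (Bx R' (0 : V d))) (fun _ => Qv P 0)
      (fun A => fH P.N t ρ (reach A (Bx R' (0 : V d)) (Bx P.m ((P.N : ℤ) • z0)))) := by
    intro z0 hz0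
    have := run_hits hd P hPOK hε0 hε2 hst t ρ hR z0 hz0 (Bx R' (0 : V d)) (by rw [hNR])
    exact this
  set q : ℝ := 1 - (1 - (p0 : ℝ)) * (1 - δ) ^ (J + 2) with hq
  have hqs : 1 - q = (1 - P.δ) * (1 - Qv P 0) := by
    have e1 : Qv P 0 = 1 - (1 - pp) * (1 - δ) ^ J := by
      unfold Qv
      rw [if_pos rfl]
    have e2 : P.δ = δ := rfl
    rw [e1, e2, hq, hpp, pow_add]
    ring
  have hst2 := start P hPOK ⟨0, by omega⟩ t ρ R' t (by omega) hη10 hL hrun q hqs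
  have hBern : 1 - ((p1 : ℝ) - (p0 : ℝ)) ≤ (1 - δ) ^ (J + 2) := by
    have := one_add_mul_le_pow (a := -δ) (by linarith) (J + 2)
    have e : (1 : ℝ) + ((J + 2 : ℕ) : ℝ) * (-δ) = 1 - ((p1 : ℝ) - (p0 : ℝ)) := by
      push_cast
      rw [← hδJ]; ring
    rw [e] at this
    simpa [sub_eq_add_neg] using this
  have hpow1 : (1 - δ) ^ (J + 2) ≤ 1 := pow_le_one₀ (by linarith) (by linarith)
  have hpow0 : 0 ≤ (1 - δ) ^ (J + 2) := pow_nonneg (by linarith) _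
  have hq0 : 0 ≤ q := by
    rw [hq]
    have : (1 - (p0 : ℝ)) * (1 - δ) ^ (J + 2) ≤ 1 := mul_le_one₀ (by linarith) hpow0 hpow1
    linarith
  have hqp : q ≤ (p1 : ℝ) := by
    rw [hq]
    have h5 : (1 - (p0 : ℝ)) * (1 - ((p1 : ℝ) - (p0 : ℝ))) ≤ (1 - (p0 : ℝ)) * (1 - δ) ^ (J + 2) :=
      mul_le_mul_of_nonneg_left hBern (by linarith)
    nlinarith
  have hbr := bridge_Pr p1 (EB R' (0 : V d))
    (fun ω : Om d => ¬ Core P.N t ρ R' ω) (by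
      intro ω ω' hωω
      have := Loc_Core P.N t ρ R' ω ω' hωω
      simp only at this ⊢
      rw [this])
  have hEB : EB R' (0 : V d) = eIn (Bx R' (0 : V d)) := rfl
  have hgoal : (Pr d p1).real {ω : Om d | ¬ Core P.N t ρ R' ω} ≤ η := by
    rw [hbr, hEB]
    have e1 : ∀ r : Ed d → ℝ, Ex (eIn (Bx R' (0 : V d))) r
        (fun A => ind (¬ Core P.N t ρ R' (om A))) =
        1 - Ex (eIn (Bx R' (0 : V d))) r (fun A => ind (Core P.N t ρ R' (om A))) := by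
      intro r
      have : (fun A : Finset (Ed d) => ind (¬ Core P.N t ρ R' (om A))) =
          (fun A => 1 - ind (Core P.N t ρ R' (om A))) := by
        funext A
        exact ind_not _
      rw [this, Ex_sub, Ex_const]
    have e2 := Ex_mono_q (F := eIn (Bx R' (0 : V d))) (q := fun _ => q)
      (q' := fun _ => (p1 : ℝ)) (f := fun A => ind (Core P.N t ρ R' (om A)))
      (fun e _ => ⟨hq0, hqp, h11⟩) (fun A B hAB _ => ind_mono (Core_mono hAB))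
    rw [e1] at hst2 ⊢
    have e3 : (1 - P.δ ^ (d * (2 * P.m + 1) ^ d)) ^ t ≤ η / 2 := h1
    linarith
  exact hgoal

end Ein99.GMA
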