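import Pool.Agent.LibGM77.P_Bridge
import Pool.Agent.LibGM77.C_Reach
import Pool.Agent.LibGM95.P3

/-!
X_Step. Adaptor from the one-step lemma `Ein99.GM.step` to `StepOK`.
-/

open MeasureTheory ProbabilityTheory Filter Topology

namespace Ein99.GMA

variable {d : ℕ}

theorem loc_succ (m n : ℕ) (x : V d) (dir : Dir d) (σ : Fin d → Bool) (C : Finset (V d)) :
    Loc (EB (n + 2 * m + 1) x : Set (Ed d)) (fun ω : Om d => GM.Succ ω m n x dir σ C) := by
  intro ω ω' h
  have key : ∀ v y : V d, JoinIn ω (Bx (n + 2 * m + 1) x : Set (V d)) v y =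
      JoinIn ω' (Bx (n + 2 * m + 1) x : Set (V d)) v y := by
    intro v y
    exact Loc_JoinIn (n + 2 * m + 1) x v y ω ω' h
  unfold GM.Succ
  simp only [key]

theorem suc_of_succ (m n : ℕ) (b : V d) (i : Fin d) (g : Fin d → Bool) (C : Finset (V d))
    (A : Finset (Ed d)) (h : GM.Succ (om A) m n b (i, g i) g C) : Suc m n b i g C A := by
  obtain ⟨b', hnew, hb⟩ := h
  refine ⟨b', ?_, ?_⟩
  · obtain ⟨h1, h2⟩ := hnew
    refine ⟨?_, ?_⟩
    · unfold sg
      simp only at h1
      cases hg : g i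
      · rw [hg] at h1
        simp only [Bool.false_eq_true, if_false] at h1 ⊢
        push_cast at h1
        rw [h1]; ring
      · rw [hg] at h1
        simp only [if_true] at h1 ⊢
        push_cast at h1
        rw [h1]; ring
    · intro j hj
      obtain ⟨h3, h4⟩ := h2 j hj
      rw [abs_le] at h3
      unfold sg
      cases hg : g j
      · rw [hg] at h4
        simp only [Bool.false_eq_true, if_false] at h4 ⊢
        constructor
        · linarith
        · linarith [h3.1]
      · rw [hg] at h4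
        simp only [if_true] at h4 ⊢
        constructor
        · linarith
        · linarith [h3.2]
  · intro y hy
    rw [mem_reach]
    rcases hb y hy with h | ⟨v, hv, hvy⟩
    · exact Or.inl h
    · by_cases hyv : v = y
      · left; rw [← hyv]; exact hv
      · right
        refine ⟨?_, v, hv, hvy⟩
        have := (JoinIn_mem hvy hyv).2
        exact_mod_cast this

theorem step_ok (d : ℕ) (p0 : unitInterval) (h0 : 0 < (Pr d p0).real {ω : Om d | InfC ω 0})
    (hp0 : (p0 : ℝ) < 1) (ε δ : ℝ) (hε : 0 < ε) (hδ : 0 < δ) (hδ1 : δ ≤ 1) :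
    ∃ m n : ℕ, m ≤ n ∧ StepOK d ε δ (p0 : ℝ) m n := by
  obtain ⟨m, n, _, hmn, hs⟩ := GM.step d p0 ⟨δ, hδ.le, hδ1⟩ h0 hp0 hδ ε hε
  refine ⟨m, n, hmn, ?_⟩
  intro b i g C hC a ha hfresh
  have h01 : ∀ e, a e ∈ unitInterval := fun e => ⟨hδ.le.trans (ha e).1, (ha e).2⟩
  have h1 := hs b (i, g i) g C hC (fun e => ⟨a e, h01 e⟩) (fun e => (ha e).1) (by
    intro e he h1 h2
    refine hfresh e he ?_
    intro h3
    rcases h3 with h3 | h3
    · exact h1 h3
    · apply h2
      have : st (e.2, true) = (Pi.single e.2 1 : V d) := by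
        unfold st; simp
      rw [this]; exact h3)
  refine h1.trans ?_
  unfold GM.PB
  rw [bridge (fun e => ⟨a e, h01 e⟩) (EB (n + 2 * m + 1) b) _
    (loc_succ m n b (i, g i) g C)]
  apply Ex_mono
  · intro e _
    exact ⟨(h01 e).1, (h01 e).2⟩
  · intro A _
    apply ind_mono
    exact suc_of_succ m n b i g C A

end Ein99.GMA
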